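import Mathlib

namespace Pool.Agent.Work.MP_01d39a_al

open Finset

variable {G : Type*} [Group G]

/-- Elements commuting with a positive power of `a`. -/
def E0 (a : G) : Subgroup G where
  carrier := {x | ∃ n : ℕ, 0 < n ∧ Commute x (a ^ n)}
  one_mem' := ⟨1, one_pos, Commute.one_left _⟩
  mul_mem' := by
    rintro x y ⟨n, hn, hx⟩ ⟨m, hm, hy⟩
    refine ⟨n * m, Nat.mul_pos hn hm, Commute.mul_left ?_ ?_⟩
    · rw [pow_mul]; exact hx.pow_right m
    · rw [mul_comm, pow_mul]; exact hy.pow_right n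
  inv_mem' := by
    rintro x ⟨n, hn, hx⟩
    exact ⟨n, hn, hx.inv_left⟩

lemma mem_E0 {a x : G} : x ∈ E0 a ↔ ∃ n : ℕ, 0 < n ∧ Commute x (a ^ n) := Iff.rfl

lemma pow_mem_E0 (a : G) (n : ℕ) : a ^ n ∈ E0 a :=
  (E0 a).pow_mem ⟨1, one_pos, by simp⟩ n

lemma E0_pow (a : G) {n : ℕ} (hn : 0 < n) : E0 (a ^ n) = E0 a := by
  ext x
  constructor
  · rintro ⟨m, hm, hx⟩
    exact ⟨n * m, Nat.mul_pos hn hm, by rwa [pow_mul]⟩
  · rintro ⟨m, hm, hx⟩
    refine ⟨m, hm, ?_⟩
    rw [← pow_mul, mul_comm, pow_mul]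
    exact hx.pow_right n

lemma exists_common_pow (a : G) (T : Set G) (hT : T.Finite) (h : ∀ x ∈ T, x ∈ E0 a) :
    ∃ n : ℕ, 0 < n ∧ ∀ x ∈ T, Commute x (a ^ n) := by
  induction T, hT using Set.Finite.induction_on with
  | empty => exact ⟨1, one_pos, by simp⟩
  | insert _ _ ih =>
    rename_i x T _ _
    obtain ⟨n, hn, hx⟩ := ih fun y hy => h y (Set.mem_insert_of_mem _ hy)
    obtain ⟨m, hm, hy⟩ := h x (Set.mem_insert _ _)
    refine ⟨n * m, Nat.mul_pos hn hm, ?_⟩
    rintro y (rfl | hy')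
    · rw [mul_comm, pow_mul]; exact hy.pow_right n
    · rw [pow_mul]; exact (hx y hy').pow_right m

/-- The path `1, u a^(k 0), u a^(k 0) u a^(k 1), ...`. -/
def path (u a : G) (k : ℕ → ℕ) : ℕ → G
  | 0 => 1
  | i + 1 => path u a k i * u * a ^ k i

@[simp] lemma path_zero (u a : G) (k : ℕ → ℕ) : path u a k 0 = 1 := rfl

lemma path_succ (u a : G) (k : ℕ → ℕ) (i : ℕ) :
    path u a k (i + 1) = path u a k i * u * a ^ k i := rfl

lemma path_congr (u a : G) {k k' : ℕ → ℕ} {n : ℕ} (h : ∀ j < n, k j = k' j) :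
    path u a k n = path u a k' n := by
  induction n with
  | zero => rfl
  | succ n ih =>
    rw [path_succ, path_succ, ih fun j hj => h j (by omega), h n (by omega)]

lemma path_add (u a : G) (k : ℕ → ℕ) (i j : ℕ) :
    path u a k (i + j) = path u a k i * path u a (fun n => k (i + n)) j := by
  induction j with
  | zero => simp
  | succ j ih => rw [← add_assoc, path_succ, path_succ, ih]; group

theorem exists_F (a u : G) (hfin : {x | x ∈ E0 a ∧ u⁻¹ * x * u ∈ E0 a}.Finite) :
    ∃ n : ℕ, 0 < n ∧ ∃ (F : Subgroup G) (J : ℕ), (F : Set G).Finite ∧ F ≤ E0 a ∧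
      (∀ (k : ℕ → ℕ) (i : ℕ) (f : G),
        f ∈ F ↔ (path u (a ^ n) k i)⁻¹ * f * path u (a ^ n) k i ∈ F) ∧
      (∀ (k : ℕ → ℕ) (s : G),
        (∀ j ≤ J + 1, (path u (a ^ n) k j)⁻¹ * s * path u (a ^ n) k j ∈ E0 a) → s ∈ F) := by
  classical
  set Φ : Set G := {x | x ∈ E0 a ∧ u⁻¹ * x * u ∈ E0 a} with hΦ
  obtain ⟨n, hn, hcomm⟩ := exists_common_pow a (Φ ∪ (fun x => u⁻¹ * x * u) '' Φ)
    (hfin.union (hfin.image _)) (by
      rintro x (hx | ⟨y, hy, rfl⟩)
      · exact hx.1
      · exact hy.2)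
  have hc1 : ∀ x ∈ Φ, Commute x (a ^ n) := fun x hx => hcomm x (Or.inl hx)
  have hc2 : ∀ x ∈ Φ, Commute (u⁻¹ * x * u) (a ^ n) := fun x hx =>
    hcomm _ (Or.inr ⟨x, hx, rfl⟩)
  let F : Subgroup G :=
    { carrier := {x | ∀ j : ℕ, (u ^ j)⁻¹ * x * u ^ j ∈ Φ}
      one_mem' := fun j => by
        simp only [hΦ, mul_one, inv_mul_cancel, Set.mem_ofPred_eq]
        exact ⟨one_mem _, one_mem _⟩
      mul_mem' := by
        intro x y hx hy j
        have h1 := (E0 a).mul_mem (hx j).1 (hy j).1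
        have h2 := (E0 a).mul_mem (hx j).2 (hy j).2
        constructor
        · convert h1 using 1; group
        · convert h2 using 1; group
      inv_mem' := by
        intro x hx j
        have h1 := (E0 a).inv_mem (hx j).1
        have h2 := (E0 a).inv_mem (hx j).2
        constructor
        · convert h1 using 1; group
        · convert h2 using 1; group }
  have hF : ∀ x, x ∈ F ↔ ∀ j : ℕ, (u ^ j)⁻¹ * x * u ^ j ∈ Φ := fun x => Iff.rfl
  have hFΦ : ∀ x ∈ F, x ∈ Φ := fun x hx => by simpa using (hF x).1 hx 0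
  have hFfin : (F : Set G).Finite := hfin.subset hFΦ
  have hu1 : ∀ x ∈ F, u⁻¹ * x * u ∈ F := by
    intro x hx j
    have := (hF x).1 hx (j + 1)
    convert this using 1
    group
  have hu2 : ∀ x, u⁻¹ * x * u ∈ F → x ∈ F := by
    have hb : Set.BijOn (fun x => u⁻¹ * x * u) (F : Set G) F :=
      (hFfin.injOn_iff_bijOn_of_mapsTo hu1).1 (fun x _ y _ hxy => by simpa using hxy)
    intro x hx
    obtain ⟨y, hy, hyx⟩ := hb.surjOn hx
    have : y = x := by simpa using hyx
    exact this ▸ hy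
  have ha1 : ∀ x ∈ F, ∀ c : ℕ, ((a ^ n) ^ c)⁻¹ * x * (a ^ n) ^ c = x := by
    intro x hx c
    have := ((hc1 x (hFΦ x hx)).pow_right c).eq
    rw [mul_assoc, this]; group
  have ha2 : ∀ x, ∀ c : ℕ, ((a ^ n) ^ c)⁻¹ * x * (a ^ n) ^ c ∈ F → x ∈ F := by
    intro x c hx
    have h1 := ha1 _ hx c
    have h2 : ((a ^ n) ^ c)⁻¹ * x * (a ^ n) ^ c = x := by simpa using h1
    exact h2 ▸ hx
  refine ⟨n, hn, F, hfin.toFinset.card, hFfin, fun x hx => (hFΦ x hx).1, ?_, ?_⟩
  · intro k i
    induction i with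
    | zero => simp
    | succ i ih =>
      intro f
      rw [ih f, path_succ]
      set y := path u (a ^ n) k i
      have e : (y * u * (a ^ n) ^ k i)⁻¹ * f * (y * u * (a ^ n) ^ k i) =
          ((a ^ n) ^ k i)⁻¹ * (u⁻¹ * (y⁻¹ * f * y) * u) * (a ^ n) ^ k i := by group
      rw [e]
      constructor
      · intro h
        rw [ha1 _ (hu1 _ h)]
        exact hu1 _ h
      · intro h
        exact hu2 _ (ha2 _ _ h)
  · intro k s hs
    set J := hfin.toFinset.card with hJ
    have hstep : ∀ j ≤ J, (path u (a ^ n) k j)⁻¹ * s * path u (a ^ n) k j ∈ Φ := by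
      intro j hj
      refine ⟨hs j (by omega), ?_⟩
      have h1 := hs (j + 1) (by omega)
      rw [path_succ] at h1
      have h2 : (a ^ n) ^ k j ∈ E0 a := (E0 a).pow_mem (pow_mem_E0 a n) _
      have h3 := (E0 a).mul_mem ((E0 a).mul_mem h2 h1) ((E0 a).inv_mem h2)
      convert h3 using 1
      group
    have hid : ∀ j ≤ J, (path u (a ^ n) k j)⁻¹ * s * path u (a ^ n) k j =
        (u ^ j)⁻¹ * s * u ^ j := by
      intro j hj
      induction j with
      | zero => simp
      | succ j ih =>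
        have h1 := ((hc2 _ (hstep j (by omega))).pow_right (k j)).eq
        rw [ih (by omega)] at h1
        rw [path_succ]
        set y := path u (a ^ n) k j
        have e : (y * u * (a ^ n) ^ k j)⁻¹ * s * (y * u * (a ^ n) ^ k j) =
          ((a ^ n) ^ k j)⁻¹ * ((u⁻¹ * (y⁻¹ * s * y) * u) * (a ^ n) ^ k j) := by group
        rw [e, ih (by omega), h1]
        group
    have hΦj : ∀ j ≤ J, (u ^ j)⁻¹ * s * u ^ j ∈ Φ := fun j hj => hid j hj ▸ hstep j hj
    obtain ⟨j1, hj1, j2, hj2, hne, heq⟩ := Finset.exists_ne_map_eq_of_card_lt_of_maps_to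
      (s := range (J + 1)) (t := hfin.toFinset) (by simp [hJ])
      (f := fun j => (u ^ j)⁻¹ * s * u ^ j) (by
        intro j hj
        simp only [coe_range, Set.mem_Iio] at hj
        simpa using hΦj j (by omega))
    have key : ∀ j1 j2 : ℕ, j1 < j2 → j2 ≤ J →
        (u ^ j1)⁻¹ * s * u ^ j1 = (u ^ j2)⁻¹ * s * u ^ j2 → s ∈ F := by
      intro j1 j2 hlt hle heq
      obtain ⟨d, rfl⟩ := Nat.exists_eq_add_of_lt hlt
      have hcs : Commute s (u ^ (d + 1)) := by
        have : s * u ^ (d + 1) = u ^ (d + 1) * s := by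
          calc s * u ^ (d + 1)
              = u ^ (j1 + d + 1) * ((u ^ (j1 + d + 1))⁻¹ * s * u ^ (j1 + d + 1)) *
                  (u ^ j1)⁻¹ := by group
            _ = u ^ (j1 + d + 1) * ((u ^ j1)⁻¹ * s * u ^ j1) * (u ^ j1)⁻¹ := by rw [heq]
            _ = u ^ (d + 1) * s := by group
        exact this
      intro j
      have hj := hΦj (j % (d + 1)) (by have := Nat.mod_lt j (show 0 < d + 1 by omega); omega)
      have e : u ^ j = (u ^ (d + 1)) ^ (j / (d + 1)) * u ^ (j % (d + 1)) := by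
        rw [← pow_mul, ← pow_add, Nat.div_add_mod]
      have h2 := (hcs.pow_right (j / (d + 1))).eq
      rw [e]
      convert hj using 1
      set w := (u ^ (d + 1)) ^ (j / (d + 1))
      calc (w * u ^ (j % (d + 1)))⁻¹ * s * (w * u ^ (j % (d + 1)))
          = (u ^ (j % (d + 1)))⁻¹ * w⁻¹ * (s * w) * u ^ (j % (d + 1)) := by group
        _ = _ := by rw [h2]; group
    simp only [mem_range] at hj1 hj2
    rcases lt_or_gt_of_ne hne with h | h
    · exact key j1 j2 h (by omega) heq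
    · exact key j2 j1 h (by omega) heq.symm

/-- A condition on sequences that determines the coordinate `r` from the others. -/
def Thin (C : (ℕ → ℕ) → Prop) : Prop :=
  ∃ r : ℕ, ∀ k k' : ℕ → ℕ, (∀ j, j ≠ r → k j = k' j) → C k → C k' → k r = k' r

theorem exists_avoid {ι : Type*} [Finite ι] (C : ι → (ℕ → ℕ) → Prop) (h : ∀ i, Thin (C i)) :
    ∃ k, ∀ i, ¬ C i k := by
  classical
  have := Fintype.ofFinite ι
  choose r hr using h
  obtain ⟨R, hR⟩ : ∃ R : ℕ, ∀ i, r i < R :=
    ⟨(univ.sup r) + 1, fun i => Nat.lt_succ_of_le (Finset.le_sup (f := r) (mem_univ i))⟩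
  set N := Fintype.card ι + 1 with hN
  let ext : (Fin R → Fin N) → ℕ → ℕ := fun ω j => if hj : j < R then (ω ⟨j, hj⟩ : ℕ) else 0
  let Bad : ι → Finset (Fin R → Fin N) := fun i => univ.filter fun ω => C i (ext ω)
  have hBad : ∀ i, (Bad i).card * N ≤ Fintype.card (Fin R → Fin N) := by
    intro i
    have h1 : ((Bad i) ×ˢ (univ : Finset (Fin N))).card ≤ (univ : Finset (Fin R → Fin N)).card := by
      refine Finset.card_le_card_of_injOn
        (fun p => Function.update p.1 ⟨r i, hR i⟩ p.2) (fun _ _ => mem_univ _) ?_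
      rintro ⟨ω, c⟩ hp ⟨ω', c'⟩ hp' heq
      simp only [coe_product, Set.mem_prod, mem_coe, mem_filter, Bad] at hp hp'
      have hc : c = c' := by simpa using congrFun heq ⟨r i, hR i⟩
      have hoff : ∀ j, j ≠ (⟨r i, hR i⟩ : Fin R) → ω j = ω' j := by
        intro j hj
        simpa [Function.update_of_ne hj] using congrFun heq j
      have hon : ext ω (r i) = ext ω' (r i) := by
        refine hr i _ _ ?_ hp.1.2 hp'.1.2
        intro j hj
        simp only [ext]
        split_ifs with hjR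
        · rw [hoff _ (fun h => hj (by simpa using congrArg Fin.val h))]
        · rfl
      simp only [ext, dif_pos (hR i)] at hon
      refine Prod.ext ?_ hc
      funext j
      by_cases hj : j = ⟨r i, hR i⟩
      · rw [hj]; exact Fin.ext hon
      · exact hoff j hj
    simpa using h1
  by_contra hcon
  push Not at hcon
  have hcov : (univ : Finset (Fin R → Fin N)) ⊆ univ.biUnion Bad := by
    intro ω _
    obtain ⟨i, hi⟩ := hcon (ext ω)
    exact mem_biUnion.2 ⟨i, mem_univ _, mem_filter.2 ⟨mem_univ _, hi⟩⟩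
  have h2 := (card_le_card hcov).trans card_biUnion_le
  have h3 : (∑ i, (Bad i).card) * N ≤ Fintype.card ι * Fintype.card (Fin R → Fin N) := by
    rw [Finset.sum_mul]
    calc _ ≤ ∑ _i : ι, Fintype.card (Fin R → Fin N) := Finset.sum_le_sum fun i _ => hBad i
      _ = _ := by simp
  have h4 : 0 < Fintype.card (Fin R → Fin N) := by
    have : Nonempty (Fin N) := ⟨⟨0, by omega⟩⟩
    exact Fintype.card_pos
  rw [card_univ] at h2
  nlinarith

end Pool.Agent.Work.MP_01d39a_al
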