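import Pool.Agent.Work.MP_01d39a_al.Rank
import Pool.Agent.Work.MP_01d39a_al.Path

namespace Pool.Agent.Work.MP_01d39a_al

open scoped RealInnerProductSpace
open Finset

/-- An equivariant map to a Hilbert space, constant on the cosets of `a`, with a Bessel
inequality. -/
structure Cfg (G E : Type*) [Group G] [NormedAddCommGroup E] [InnerProductSpace ℝ E] where
  P : G → E
  a : G
  u : G
  ha : ∀ k : ℤ, a ^ k = 1 → k = 0
  inv : ∀ t x y x' y',
    ⟪P (t * x) - P (t * y), P (t * x') - P (t * y')⟫ = ⟪P x - P y, P x' - P y'⟫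
  fix : ∀ x, P (x * a) = P x
  bessel : ∀ g, ∃ M : ℝ, 0 < M ∧
    ∀ (Y : Finset G) (v : E), ∑ x ∈ Y, ⟪P (x * g) - P x, v⟫ ^ 2 ≤ M * ‖v‖ ^ 2
  ne : P u ≠ P 1

namespace Cfg

variable {G E : Type*} [Group G] [NormedAddCommGroup E] [InnerProductSpace ℝ E] (c : Cfg G E)

lemma fix_pow (x : G) (n : ℕ) : c.P (x * c.a ^ n) = c.P x := by
  induction n with
  | zero => simp
  | succ n ih => rw [pow_succ, ← mul_assoc, c.fix, ih]

lemma fix_zpow (x : G) (k : ℤ) : c.P (x * c.a ^ k) = c.P x := by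
  obtain ⟨n, rfl | rfl⟩ := Int.eq_nat_or_neg k
  · simpa using c.fix_pow x n
  · rw [← c.fix_pow (x * c.a ^ (-(n : ℤ))) n]
    simp

lemma pow_inj (i j : ℕ) (h : c.a ^ i = c.a ^ j) : i = j := by
  have := c.ha ((i : ℤ) - j) (by rw [zpow_sub, zpow_natCast, zpow_natCast, h]; simp)
  omega

/-- Replace `a` by a positive power. -/
def pow (n : ℕ) (hn : 0 < n) : Cfg G E where
  P := c.P
  a := c.a ^ n
  u := c.u
  ha := fun k hk => by
    have := c.ha (n * k) (by rwa [zpow_mul, zpow_natCast])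
    rcases mul_eq_zero.1 this with h | h
    · omega
    · exact h
  inv := c.inv
  fix := fun x => c.fix_pow x n
  bessel := c.bessel
  ne := c.ne

/-- Edge vectors. -/
def e (x : G) : E := c.P (x * c.u) - c.P x

/-- Squared norm of the edge vectors. -/
noncomputable def m : ℝ := ‖c.e 1‖ ^ 2

/-- Correlation of edge vectors. -/
noncomputable def h (t : G) : ℝ := ⟪c.e t, c.e 1⟫

/-- Bessel constant for edge vectors. -/
noncomputable def M : ℝ := (c.bessel c.u).choose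

lemma M_pos : 0 < c.M := (c.bessel c.u).choose_spec.1

lemma bessel_e (Y : Finset G) (v : E) : ∑ x ∈ Y, ⟪c.e x, v⟫ ^ 2 ≤ c.M * ‖v‖ ^ 2 :=
  (c.bessel c.u).choose_spec.2 Y v

lemma m_pos : 0 < c.m := by
  have : c.e 1 ≠ 0 := by simpa [e, sub_eq_zero] using c.ne
  have := norm_pos_iff.2 this
  unfold m
  positivity

lemma inner_e (x y : G) : ⟪c.e x, c.e y⟫ = c.h (y⁻¹ * x) := by
  have := c.inv y⁻¹ (x * c.u) x (y * c.u) y
  simp only [h, e]
  rw [← this]
  simp [mul_assoc]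

lemma h_one : c.h 1 = c.m := by simp [h, m]

lemma norm_e_sq (x : G) : ‖c.e x‖ ^ 2 = c.m := by
  rw [← real_inner_self_eq_norm_sq, inner_e, inv_mul_cancel, h_one]

lemma h_inv (t : G) : c.h t⁻¹ = c.h t := by
  have := c.inner_e 1 t
  rw [mul_one] at this
  rw [← this, real_inner_comm]
  rfl

lemma sum_h_sq (Y : Finset G) : ∑ t ∈ Y, c.h t ^ 2 ≤ c.M * c.m := c.bessel_e Y (c.e 1)

lemma exists_tail [DecidableEq G] (ε : ℝ) (hε : 0 < ε) : ∃ S₀ : Finset G,
    (∀ t, t⁻¹ ∈ S₀ ↔ t ∈ S₀) ∧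
    ∀ Y : Finset G, ∑ t ∈ Y, (if t ∈ S₀ then 0 else c.h t) ^ 2 ≤ ε := by
  have hs : Summable fun t => c.h t ^ 2 :=
    summable_of_sum_le (fun _ => sq_nonneg _) c.sum_h_sq
  obtain ⟨S, hS⟩ := hs.vanishing (e := Set.Iio ε) (Iio_mem_nhds hε)
  refine ⟨S ∪ S.image (·⁻¹), ?_, fun Y => ?_⟩
  · intro t
    simp only [mem_union, mem_image]
    constructor
    · rintro (h | ⟨s, hs, h⟩)
      · exact Or.inr ⟨_, h, by simp⟩
      · exact Or.inl (by rwa [← inv_inj.1 h])
    · rintro (h | ⟨s, hs, h⟩)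
      · exact Or.inr ⟨_, h, rfl⟩
      · exact Or.inl (by rwa [← h, inv_inv])
  · have h1 := hS (Y \ (S ∪ S.image (·⁻¹))) (by
      rw [Finset.disjoint_left]
      intro t ht ht'
      simp only [mem_sdiff, mem_union, not_or] at ht
      exact ht.2.1 ht')
    refine le_trans (le_of_eq ?_) (le_of_lt h1)
    rw [Finset.sdiff_eq_filter, Finset.sum_filter]
    refine Finset.sum_congr rfl fun t _ => ?_
    split_ifs <;> simp

lemma eq_zero_of_infinite {g : G} {Y : Set G} (hY : Y.Infinite) {ξ : E}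
    (hξ : ∀ y ∈ Y, c.P (y * g) - c.P y = ξ) : ξ = 0 := by
  obtain ⟨M, hM, hb⟩ := c.bessel g
  by_contra hne
  have hpos : 0 < ‖ξ‖ ^ 2 := by have := norm_pos_iff.2 hne; positivity
  obtain ⟨n, hn⟩ := exists_nat_gt (M / ‖ξ‖ ^ 2)
  obtain ⟨T, hT, hcard⟩ := hY.exists_subset_card_eq n
  have h1 := hb T ξ
  rw [Finset.sum_congr rfl (g := fun _ => (‖ξ‖ ^ 2) ^ 2) (fun y hy => by
    rw [hξ y (hT hy), real_inner_self_eq_norm_sq])] at h1
  simp only [sum_const, hcard, nsmul_eq_mul] at h1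
  rw [div_lt_iff₀ hpos] at hn
  nlinarith

lemma P_mul_of_eq {σ : G} (h : c.P σ = c.P 1) (y : G) : c.P (y * σ) = c.P y := by
  have := c.inv y σ 1 σ 1
  rw [h, sub_self, inner_zero_left, mul_one, real_inner_self_eq_norm_sq] at this
  have h2 : ‖c.P (y * σ) - c.P y‖ = 0 := by simpa using this
  rwa [norm_eq_zero, sub_eq_zero] at h2

lemma fix_E0 {σ : G} (hσ : σ ∈ E0 c.a) (y : G) : c.P (y * σ) = c.P y := by
  obtain ⟨n, hn, hcomm⟩ := hσ
  apply c.P_mul_of_eq
  rw [← sub_eq_zero]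
  refine c.eq_zero_of_infinite (g := σ) (Y := Set.range fun j : ℕ => (c.a ^ n) ^ j) ?_ ?_
  · refine Set.infinite_range_of_injective fun i j hij => ?_
    simp only [← pow_mul] at hij
    exact Nat.eq_of_mul_eq_mul_left hn (c.pow_inj _ _ hij)
  · rintro _ ⟨j, rfl⟩
    dsimp only
    rw [← (hcomm.pow_right j).eq, ← pow_mul, c.fix_pow]
    have := c.fix_pow 1 (n * j)
    rw [one_mul] at this
    rw [this]

lemma finite_parallel : {x | x ∈ E0 c.a ∧ c.u⁻¹ * x * c.u ∈ E0 c.a}.Finite := by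
  by_contra hinf
  have : c.e 1 = 0 := by
    refine c.eq_zero_of_infinite (g := c.u) hinf ?_
    rintro y ⟨h1, h2⟩
    have e1 := c.fix_E0 h1 1
    have e2 := c.fix_E0 h2 c.u
    rw [one_mul] at e1
    rw [show c.u * (c.u⁻¹ * y * c.u) = y * c.u by group] at e2
    simp [e, e1, e2]
  have h := c.m_pos
  simp [m, this] at h

lemma edge_bound (Y : Finset G) (Z : Finset E) (h1 : ∀ y ∈ Y, c.P y ∈ Z)
    (h2 : ∀ y ∈ Y, c.P (y * c.u) ∈ Z) : (Y.card : ℝ) * c.m ≤ c.M * Z.card := by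
  have := trace_bound Z Y c.e c.e (fun y hy => Submodule.sub_mem _
    (Submodule.subset_span (h2 y hy)) (Submodule.subset_span (h1 y hy))) c.M c.M_pos.le
    (c.bessel_e Y)
  simp only [real_inner_self_eq_norm_sq, norm_e_sq, sum_const, nsmul_eq_mul] at this
  rcases Nat.eq_zero_or_pos Y.card with h0 | h0
  · rw [h0]; have := c.M_pos; simp; positivity
  · have hp : (0 : ℝ) < Y.card * c.m := mul_pos (by exact_mod_cast h0) c.m_pos
    rw [sq] at this
    exact le_of_mul_le_mul_left this hp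

lemma P_path_succ (k : ℕ → ℕ) (x : G) (i : ℕ) :
    c.P (x * path c.u c.a k (i + 1)) = c.P (x * path c.u c.a k i * c.u) := by
  rw [path_succ, ← mul_assoc, ← mul_assoc, c.fix_pow]

lemma telescope (k : ℕ → ℕ) (x : G) (i d : ℕ) :
    c.P (x * path c.u c.a k (i + d)) - c.P (x * path c.u c.a k i) =
      ∑ r ∈ range d, c.e (x * path c.u c.a k (i + r)) := by
  induction d with
  | zero => simp
  | succ d ih =>
    rw [Finset.sum_range_succ, ← ih, ← add_assoc, P_path_succ, e]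
    abel

end Cfg

end Pool.Agent.Work.MP_01d39a_al
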