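import Mathlib

namespace Pool.Agent.Work.MP_01d39a_al

/-- `G` has a paradoxical decomposition with pieces `A 0, ..., A (m-1), B 0, ..., B (n-1)`:
the pieces are pairwise disjoint and `G` is the union of the `g i * A i` and also the union of
the `h j * B j`. -/
def HasParadoxicalDecomposition (G : Type*) [Group G] (m n : ℕ) : Prop :=
  ∃ (A : Fin m → Set G) (B : Fin n → Set G) (g : Fin m → G) (h : Fin n → G),
    (∀ i i', i ≠ i' → Disjoint (A i) (A i')) ∧
    (∀ j j', j ≠ j' → Disjoint (B j) (B j')) ∧
    (∀ i j, Disjoint (A i) (B j)) ∧
    (⋃ i, (fun x => g i * x) '' A i) = Set.univ ∧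
    (⋃ j, (fun x => h j * x) '' B j) = Set.univ

/-- The Tarski number: the least `m + n` over all paradoxical decompositions, `⊤` if none. -/
noncomputable def tarskiNumber (G : Type*) [Group G] : ℕ∞ :=
  sInf {k : ℕ∞ | ∃ m n : ℕ, HasParadoxicalDecomposition G m n ∧ k = ((m + n : ℕ) : ℕ∞)}

/-- The complex Hilbert space of square-summable functions on `G`. -/
abbrev L2 (G : Type*) : Type _ := lp (fun _ : G => ℂ) 2

/-- The left regular representation: `(leftReg g v) x = v (g⁻¹ * x)`. -/
def leftReg {G : Type*} [Group G] (g : G) (v : L2 G) : L2 G :=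
  ⟨fun x => v (g⁻¹ * x), memℓp_gen
    ((Equiv.mulLeft g⁻¹).summable_iff.2 ((lp.memℓp v).summable (by norm_num)))⟩

/-- The 1-cocycles of `G` with values in the left regular representation. -/
def cocycles (G : Type*) [Group G] : Set (G → L2 G) :=
  {c | ∀ g h : G, c (g * h) = c g + leftReg g (c h)}

/-- The 1-coboundaries of `G` with values in the left regular representation. -/
def coboundaries (G : Type*) [Group G] : Set (G → L2 G) :=
  {b | ∃ v : L2 G, ∀ g : G, b g = leftReg g v - v}

/-- The reduced first cohomology of `G` with coefficients in the left regular representation is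
nonzero: some cocycle is outside the closure of the coboundaries, in the topology of pointwise
(norm) convergence. -/
def ReducedH1Nonzero (G : Type*) [Group G] : Prop :=
  ∃ c ∈ cocycles G, c ∉ closure (coboundaries G)

end Pool.Agent.Work.MP_01d39a_al
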