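import Pool.Agent.Work.MP_01d39a_al.Hall
import Pool.Agent.Work.MP_01d39a_al.Defs

namespace Pool.Agent.Work.MP_01d39a_al

open scoped RealInnerProductSpace
open Finset

theorem decomp_of_matching {G : Type*} [Group G] (a : G) (ha : ∀ k : ℤ, a ^ k = 1 → k = 0)
    (g : Fin 3 → G) (i : G → Fin 3)
    (hinj : ∀ (y y' : G) (k : ℤ), y * g (i y) * a ^ k = y' * g (i y') → y = y') :
    HasParadoxicalDecomposition G 2 3 := by
  set ψ : G → G := fun y => y * g (i y) with hψ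
  let A₁ : Set G := {x | ∃ (y : G) (k : ℕ), x⁻¹ = ψ y * a ^ (k + 1)}
  let A₂ : Set G := {x | ¬ ∃ (y : G) (k : ℕ), x⁻¹ = ψ y * a ^ k}
  let B : Fin 3 → Set G := fun j => {x | ∃ y, i y = j ∧ x⁻¹ = ψ y}
  have h12 : Disjoint A₁ A₂ := by
    rw [Set.disjoint_left]
    rintro x ⟨y, k, h⟩ h'
    exact h' ⟨y, k + 1, h⟩
  refine ⟨![A₁, A₂], B, ![a, 1], g, ?_, ?_, ?_, ?_, ?_⟩
  · intro j j' hj
    fin_cases j <;> fin_cases j'
    · exact absurd rfl hj
    · exact h12
    · exact h12.symm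
    · exact absurd rfl hj
  · intro j j' hj
    rw [Set.disjoint_left]
    rintro x ⟨y, h1, h2⟩ ⟨y', h3, h4⟩
    have := hinj y y' 0 (by simpa [hψ] using h2.symm.trans h4)
    exact hj (by rw [← h1, ← h3, this])
  · intro j j'
    rw [Set.disjoint_left]
    fin_cases j
    · rintro x ⟨y, k, h⟩ ⟨y', -, h'⟩
      have h1 : ψ y * a ^ ((k + 1 : ℕ) : ℤ) = ψ y' := by rw [zpow_natCast, ← h, h']
      have h2 := hinj y y' _ h1
      subst h2
      have := ha ((k + 1 : ℕ) : ℤ) (by simpa using h1)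
      omega
    · rintro x h ⟨y', -, h'⟩
      exact h ⟨y', 0, by simpa using h'⟩
  · rw [Set.eq_univ_iff_forall]
    intro x
    simp only [Set.mem_iUnion]
    by_cases h : ∃ (y : G) (k : ℕ), x⁻¹ = ψ y * a ^ k
    · obtain ⟨y, k, h⟩ := h
      exact ⟨0, a⁻¹ * x, ⟨y, k, by rw [pow_succ, ← mul_assoc, ← h]; simp⟩, by simp⟩
    · exact ⟨1, x, h, by simp⟩
  · rw [Set.eq_univ_iff_forall]
    intro x
    simp only [Set.mem_iUnion]
    exact ⟨i x⁻¹, (ψ x⁻¹)⁻¹, ⟨x⁻¹, rfl, by simp⟩, by simp [hψ]⟩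

theorem Cfg.paradoxical {G E : Type*} [Group G] [NormedAddCommGroup E] [InnerProductSpace ℝ E]
    (c₀ : Cfg G E) : HasParadoxicalDecomposition G 2 3 := by
  classical
  obtain ⟨n, hn, F, J, hfin, hle, hF1, hF2⟩ := exists_F c₀.a c₀.u c₀.finite_parallel
  set c := c₀.pow n hn with hc
  have hE : E0 c.a = E0 c₀.a := E0_pow _ hn
  obtain ⟨k, l, hrank⟩ := c.rank_bound F J hF1 (by rw [hE]; exact hF2)
  set g : Fin 3 → G := fun j => path c.u c.a k (j * l) with hg
  obtain ⟨φ, hφ, hmem⟩ := (Finset.all_card_le_biUnion_card_iff_exists_injective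
    (fun q : G ⧸ F => univ.image fun j : Fin 3 => c.P (q.out * g j))).1 (by
      intro s
      have hinj : Function.Injective (fun q : G ⧸ F => q.out) := Quotient.out_injective
      rw [← card_image_of_injective s hinj]
      apply hrank
      · intro x hx x' hx' hne hmem
        obtain ⟨q, -, rfl⟩ := mem_image.1 hx
        obtain ⟨q', -, rfl⟩ := mem_image.1 hx'
        have := QuotientGroup.eq.2 hmem
        simp only [QuotientGroup.out_eq'] at this
        exact hne (by rw [this])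
      · intro x hx j hj
        obtain ⟨q, hq, rfl⟩ := mem_image.1 hx
        exact mem_biUnion.2 ⟨q, hq, mem_image.2 ⟨⟨j, by omega⟩, mem_univ _, rfl⟩⟩)
  have hmem' : ∀ q : G ⧸ F, ∃ j : Fin 3, c.P (q.out * g j) = φ q := fun q => by
    simpa using hmem q
  choose i hi using hmem'
  have hP : ∀ y : G, c.P (y * g (i (y : G ⧸ F))) = φ (y : G ⧸ F) := by
    intro y
    obtain ⟨f, hf⟩ := QuotientGroup.mk_out_eq_mul F y
    rw [← hi, hf]
    have h1 : (g (i (y : G ⧸ F)))⁻¹ * f * g (i (y : G ⧸ F)) ∈ E0 c.a := by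
      rw [hE]
      exact hle ((hF1 k _ f).1 f.2)
    rw [← c.fix_E0 h1 (y * g (i (y : G ⧸ F)))]
    congr 1
    group
  refine decomp_of_matching c.a c.ha g (fun y => i (y : G ⧸ F)) ?_
  intro y y' z h
  have h1 : (y : G ⧸ F) = (y' : G ⧸ F) := by
    apply hφ
    rw [← hP, ← hP, ← h, c.fix_zpow]
  rw [← h1] at h
  have h2 : y⁻¹ * y' ∈ F := QuotientGroup.eq.1 h1
  have h3 := (hF1 k (i (y : G ⧸ F) * l) _).1 h2
  have h4 : c.a ^ z ∈ F := by
    convert h3 using 1
    change c.a ^ z = (g (i (y : G ⧸ F)))⁻¹ * (y⁻¹ * y') * g (i (y : G ⧸ F))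
    rw [mul_assoc, mul_assoc, ← h]
    group
  have : Finite F := hfin
  have h5 : IsOfFinOrder (c.a ^ z) := by
    have := isOfFinOrder_of_finite (⟨_, h4⟩ : F)
    exact (F.subtype_injective.isOfFinOrder_iff).2 this
  obtain ⟨N, hN, h6⟩ := isOfFinOrder_iff_pow_eq_one.1 h5
  have h7 := c.ha (z * N) (by rw [zpow_mul, zpow_natCast, h6])
  have h8 : z = 0 := by
    rcases mul_eq_zero.1 h7 with h | h
    · exact h
    · omega
  subst h8
  simpa using h

end Pool.Agent.Work.MP_01d39a_al
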