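import Mathlib

namespace Pool.Agent.Work.MP_01d39a_al

open scoped InnerProductSpace
open Filter Topology

variable {H : Type*} [NormedAddCommGroup H] [InnerProductSpace ℂ H] [CompleteSpace H]

lemma norm_one_sub_le (A : H →L[ℂ] H) (hA : ‖A‖ ≤ 1) : ‖1 - star A * A‖ ≤ 1 := by
  refine ContinuousLinearMap.opNorm_le_bound _ zero_le_one fun v => ?_
  rw [one_mul]
  refine abs_le_of_sq_le_sq' ?_ (norm_nonneg _) |>.2
  have h1 : (1 - star A * A) v = v - (star A) (A v) := rfl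
  have h2 : ‖(star A) (A v)‖ ≤ ‖A v‖ := by
    have := (star A).le_opNorm (A v)
    rw [norm_star] at this
    nlinarith [norm_nonneg (A v)]
  have h3 : RCLike.re ⟪v, (star A) (A v)⟫_ℂ = ‖A v‖ ^ 2 := by
    rw [ContinuousLinearMap.star_eq_adjoint, ContinuousLinearMap.adjoint_inner_right,
      inner_self_eq_norm_sq]
  rw [h1, norm_sub_sq (𝕜 := ℂ), h3]
  nlinarith [norm_nonneg (A v), norm_nonneg ((star A) (A v))]

omit [CompleteSpace H] in
lemma birkhoff_inner (X : H →L[ℂ] H) (n : ℕ) (w v : H) :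
    ⟪w, birkhoffAverage ℂ X id n v⟫_ℂ = (n : ℂ)⁻¹ * ∑ k ∈ Finset.range n, ⟪w, (X ^ k) v⟫_ℂ := by
  simp only [birkhoffAverage, birkhoffSum, inner_smul_right, inner_sum, id]
  congr 1
  refine Finset.sum_congr rfl fun k _ => ?_
  rw [FunLike.coe_pow_eq_iterate]

theorem eq_zero_of_orthogonal_range {G S : Type*} [Group G] [Fintype S]
    (δ : S → G → H) (U : G → H →L[ℂ] H)
    (hpar : ∀ v w : H, ⟪v, w⟫_ℂ = ∑ s, ∑' x, ⟪v, δ s x⟫_ℂ * ⟪δ s x, w⟫_ℂ)
    (hUδ : ∀ t s x, U t (δ s x) = δ s (t * x))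
    (hstar : ∀ t, star (U t) = U t⁻¹)
    (A : H →L[ℂ] H) (hA : ∀ t, Commute (U t) A) (hinj : ∀ v, A v = 0 → v = 0)
    (w : H) (hw : ∀ v, ⟪A v, w⟫_ℂ = 0) : w = 0 := by
  have hU : ∀ t v w, ⟪U t v, w⟫_ℂ = ⟪v, U t⁻¹ w⟫_ℂ := by
    intro t v w
    rw [← hstar, ContinuousLinearMap.star_eq_adjoint, ContinuousLinearMap.adjoint_inner_right]
  have hcoef : ∀ X : H →L[ℂ] H, (∀ t, Commute (U t) X) → ∀ s r x,
      ⟪δ s x, X (δ r 1)⟫_ℂ = ⟪δ s 1, X (δ r x⁻¹)⟫_ℂ := by
    intro X hX s r x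
    have h1 : δ s x = U x (δ s 1) := by rw [hUδ, mul_one]
    have h2 : δ r x⁻¹ = U x⁻¹ (δ r 1) := by rw [hUδ, mul_one]
    rw [h1, hU, h2]
    exact congrArg _ (congrArg (fun T : H →L[ℂ] H => T (δ r 1)) (hX x⁻¹).eq)
  set τ : (H →L[ℂ] H) → ℂ := fun X => ∑ s, ⟪δ s 1, X (δ s 1)⟫_ℂ with hτ
  have hτ1 : ∀ X Y : H →L[ℂ] H, τ (X * Y) =
      ∑ s, ∑ r, ∑' x, ⟪δ s 1, X (δ r x)⟫_ℂ * ⟪δ r x, Y (δ s 1)⟫_ℂ := by
    intro X Y
    refine Finset.sum_congr rfl fun s _ => ?_
    rw [mul_apply_eq_comp, ← ContinuousLinearMap.adjoint_inner_left, hpar]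
    simp only [ContinuousLinearMap.adjoint_inner_left]
  have htrace : ∀ X Y : H →L[ℂ] H, (∀ t, Commute (U t) X) → (∀ t, Commute (U t) Y) →
      τ (X * Y) = τ (Y * X) := by
    intro X Y hX hY
    rw [hτ1, hτ1, Finset.sum_comm]
    refine Finset.sum_congr rfl fun r _ => Finset.sum_congr rfl fun s _ => ?_
    rw [← (Equiv.inv G).tsum_eq]
    refine tsum_congr fun x => ?_
    rw [Equiv.inv_apply, hcoef Y hY r s x⁻¹, inv_inv, hcoef X hX s r x, mul_comm]
  have hτsub : ∀ X Y, τ (X - Y) = τ X - τ Y := by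
    intro X Y
    simp [hτ, Finset.sum_sub_distrib]
  obtain ⟨B, hB1, hB, hBinj, hBw⟩ : ∃ B : H →L[ℂ] H, ‖B‖ ≤ 1 ∧ (∀ t, Commute (U t) B) ∧
      (∀ v, B v = 0 → v = 0) ∧ ∀ v, ⟪B v, w⟫_ℂ = 0 := by
    have hp : 0 < ‖A‖ + 1 := by positivity
    have hne : (((‖A‖ + 1)⁻¹ : ℝ) : ℂ) ≠ 0 := by exact_mod_cast (inv_pos.2 hp).ne'
    refine ⟨(((‖A‖ + 1)⁻¹ : ℝ) : ℂ) • A, ?_, fun t => (hA t).smul_right _, ?_, ?_⟩
    · rw [norm_smul, Complex.norm_real, Real.norm_of_nonneg (inv_pos.2 hp).le,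
        inv_mul_le_iff₀ hp]
      linarith
    · intro v hv
      rw [smul_apply, smul_eq_zero] at hv
      exact hinj v (hv.resolve_left hne)
    · intro v
      rw [smul_apply, inner_smul_left, hw, mul_zero]
  have hBs : ∀ t, Commute (U t) (star B) := by
    intro t
    have := (hB t⁻¹).star_star
    rwa [hstar, inv_inv] at this
  set X := 1 - star B * B with hX
  set Y := 1 - B * star B with hY
  have hXc : ∀ t, Commute (U t) X := fun t =>
    (Commute.one_right _).sub_right ((hBs t).mul_right (hB t))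
  have hYc : ∀ t, Commute (U t) Y := fun t =>
    (Commute.one_right _).sub_right ((hB t).mul_right (hBs t))
  have hBX : ∀ n : ℕ, B * X ^ n = Y ^ n * B := by
    have : SemiconjBy B X Y := by
      simp only [SemiconjBy, hX, hY, mul_sub, sub_mul, mul_one, one_mul, mul_assoc]
    exact fun n => (this.pow_right n).eq
  have hpow : ∀ n : ℕ, τ (X ^ n) = τ (Y ^ n) := by
    intro n
    induction n with
    | zero => simp
    | succ n ih =>
      have e1 : X ^ (n + 1) = X ^ n - (X ^ n * star B) * B := by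
        rw [pow_succ]; nth_rw 2 [hX]; rw [mul_sub, mul_one, mul_assoc]
      have e2 : Y ^ (n + 1) = Y ^ n - B * (X ^ n * star B) := by
        rw [pow_succ, ← mul_assoc, hBX]; nth_rw 2 [hY]; rw [mul_sub, mul_one, mul_assoc]
      rw [e1, e2, hτsub, hτsub, ih,
        htrace _ _ (fun t => ((hXc t).pow_right n).mul_right (hBs t)) hB]
  have hX1 : ‖X‖ ≤ 1 := norm_one_sub_le B hB1
  have hY1 : ‖Y‖ ≤ 1 := by
    have := norm_one_sub_le (star B) (by rwa [norm_star])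
    rwa [star_star] at this
  set KX := X.eqLocus (1 : H →L[ℂ] H) with hKX
  set KY := Y.eqLocus (1 : H →L[ℂ] H) with hKY
  have l1 : Tendsto (fun n => ∑ s, ⟪δ s 1, birkhoffAverage ℂ X id n (δ s 1)⟫_ℂ) atTop
      (𝓝 (∑ s, ⟪δ s 1, KX.starProjection (δ s 1)⟫_ℂ)) :=
    tendsto_finsetSum _ fun s _ =>
      tendsto_const_nhds.inner (X.tendsto_birkhoffAverage_orthogonalProjection hX1 _)
  have l2 : Tendsto (fun n => ∑ s, ⟪δ s 1, birkhoffAverage ℂ Y id n (δ s 1)⟫_ℂ) atTop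
      (𝓝 (∑ s, ⟪δ s 1, KY.starProjection (δ s 1)⟫_ℂ)) :=
    tendsto_finsetSum _ fun s _ =>
      tendsto_const_nhds.inner (Y.tendsto_birkhoffAverage_orthogonalProjection hY1 _)
  have l3 : (fun n => ∑ s, ⟪δ s 1, birkhoffAverage ℂ X id n (δ s 1)⟫_ℂ) =
      fun n => ∑ s, ⟪δ s 1, birkhoffAverage ℂ Y id n (δ s 1)⟫_ℂ := by
    funext n
    simp only [birkhoff_inner, ← Finset.mul_sum]
    rw [Finset.sum_comm, Finset.sum_comm (s := Finset.univ)]
    congr 1
    exact Finset.sum_congr rfl fun k _ => hpow k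
  rw [l3] at l1
  have l4 := tendsto_nhds_unique l1 l2
  have hKX0 : ∀ v ∈ KX, v = 0 := by
    intro v hv
    have h1 : v - (star B) (B v) = v := hv
    have h2 : (star B) (B v) = 0 := by simpa using h1
    have h3 : ⟪B v, B v⟫_ℂ = 0 := by
      rw [← ContinuousLinearMap.adjoint_inner_right, ← ContinuousLinearMap.star_eq_adjoint, h2,
        inner_zero_right]
    exact hBinj v (inner_self_eq_zero.1 h3)
  have l5 : ∑ s, ‖KY.starProjection (δ s 1)‖ ^ 2 = 0 := by
    have h1 : ∑ s, ⟪δ s 1, KX.starProjection (δ s 1)⟫_ℂ = 0 :=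
      Finset.sum_eq_zero fun s _ => by
        rw [hKX0 _ (KX.starProjection_apply_mem _), inner_zero_right]
    have h2 := congrArg (RCLike.re (K := ℂ)) (h1.symm.trans l4)
    rw [map_zero, map_sum] at h2
    rw [h2]
    refine Finset.sum_congr rfl fun s _ => ?_
    rw [inner_re_symm, Submodule.re_inner_starProjection_eq_normSq]
    rfl
  have l6 : ∀ s, KY.starProjection (δ s 1) = 0 := by
    intro s
    have := (Finset.sum_eq_zero_iff_of_nonneg (fun s _ => sq_nonneg _)).1 l5 s (Finset.mem_univ _)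
    simpa using this
  have hw0 : (star B) w = 0 := by
    refine ext_inner_left ℂ fun v => ?_
    rw [ContinuousLinearMap.star_eq_adjoint, ContinuousLinearMap.adjoint_inner_right, hBw,
      inner_zero_right]
  have hw1 : ∀ t, U t w ∈ KY := by
    intro t
    change U t w - B ((star B) (U t w)) = U t w
    have : (star B) (U t w) = U t ((star B) w) :=
      (congrArg (fun T : H →L[ℂ] H => T w) (hBs t).eq).symm
    rw [this, hw0]
    simp
  have hw2 : ∀ s x, ⟪δ s x, w⟫_ℂ = 0 := by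
    intro s x
    have h1 : δ s x = U x (δ s 1) := by rw [hUδ, mul_one]
    rw [h1, hU, ← Submodule.starProjection_eq_self_iff.2 (hw1 x⁻¹),
      ← Submodule.inner_starProjection_left_eq_right, l6, inner_zero_left]
  have := hpar w w
  simp only [hw2, mul_zero, tsum_zero, Finset.sum_const_zero] at this
  exact inner_self_eq_zero.1 this

end Pool.Agent.Work.MP_01d39a_al
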