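import Pool.Agent.Work.MP_01d39a_al.Path

namespace Pool.Agent.Work.MP_01d39a_al

open Finset

variable {G : Type*} [Group G]

lemma thinA (a u : G) (ha : ∀ i j : ℕ, a ^ i = a ^ j → i = j) (n j i' j' : ℕ) (s s' : G) :
    Thin fun k => j ≤ n ∧ i' ≤ n ∧ j' ≤ n ∧
      path u a k (n + 1) * s * (path u a k j)⁻¹ = path u a k i' * s' * (path u a k j')⁻¹ := by
  refine ⟨n, ?_⟩
  rintro k k' hk ⟨h1, h2, h3, h4⟩ ⟨-, -, -, h4'⟩
  have hc : ∀ m ≤ n, path u a k' m = path u a k m := fun m hm =>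
    path_congr u a fun j hj => (hk j (by omega)).symm
  rw [path_succ] at h4 h4'
  rw [hc j h1, hc i' h2, hc j' h3, hc n le_rfl, ← h4] at h4'
  apply ha
  simpa using h4'.symm

lemma thinB (a u : G) (i r d : ℕ) (s s' : G) :
    Thin fun k => i ≤ r ∧
      path u a k i * s * (path u a k i)⁻¹ =
        path u a k (r + 1 + d) * s' * (path u a k (r + 1 + d))⁻¹ ∧
      (path u a k r * u)⁻¹ * (path u a k i * s * (path u a k i)⁻¹) * (path u a k r * u) ∉ E0 a := by
  refine ⟨r, ?_⟩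
  rintro k k' hk ⟨h1, h2, h3⟩ ⟨-, h2', -⟩
  have hc : ∀ m ≤ r, path u a k' m = path u a k m := fun m hm =>
    path_congr u a fun j hj => (hk j (by omega)).symm
  have hw : path u a (fun n => k' (r + 1 + n)) d = path u a (fun n => k (r + 1 + n)) d :=
    path_congr u a fun j _ => (hk _ (by omega)).symm
  rw [path_add, path_succ] at h2 h2'
  rw [hc i h1, hc r le_rfl, hw] at h2'
  set t := path u a k i * s * (path u a k i)⁻¹
  set y := path u a k r
  set w := path u a (fun n => k (r + 1 + n)) d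
  set σ := (y * u)⁻¹ * t * (y * u) with hσ
  have e1 : σ = a ^ k r * (w * s' * w⁻¹) * (a ^ k r)⁻¹ := by rw [hσ, h2]; group
  have e2 : σ = a ^ k' r * (w * s' * w⁻¹) * (a ^ k' r)⁻¹ := by rw [hσ, h2']; group
  set c := w * s' * w⁻¹
  have key : ∀ p q : ℕ, p < q → σ = a ^ p * c * (a ^ p)⁻¹ → σ = a ^ q * c * (a ^ q)⁻¹ →
      σ ∈ E0 a := by
    intro p q hpq hp hq
    obtain ⟨e, rfl⟩ := Nat.exists_eq_add_of_lt hpq
    refine ⟨e + 1, by omega, ?_⟩
    have : σ * a ^ (e + 1) = a ^ (e + 1) * σ := by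
      calc σ * a ^ (e + 1) = a ^ (p + e + 1) * c * (a ^ (p + e + 1))⁻¹ * a ^ (e + 1) := by
            rw [← hq]
        _ = a ^ (e + 1) * (a ^ p * c * (a ^ p)⁻¹) := by group
        _ = _ := by rw [← hp]
    exact this
  by_contra hne
  rcases lt_or_gt_of_ne hne with h | h
  · exact h3 (key _ _ h e1 e2)
  · exact h3 (key _ _ h e2 e1)

lemma thinC (i j : ℕ) : Thin fun k => i ≠ j ∧ k i = k j := by
  refine ⟨i, ?_⟩
  rintro k k' hk ⟨h1, h2⟩ ⟨-, h2'⟩
  rw [h2, h2', hk j (Ne.symm h1)]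

theorem exists_generic [DecidableEq G] (a u : G) (ha : ∀ i j : ℕ, a ^ i = a ^ j → i = j)
    (F : Subgroup G) (J : ℕ)
    (hF1 : ∀ (k : ℕ → ℕ) (i : ℕ) (f : G), f ∈ F ↔ (path u a k i)⁻¹ * f * path u a k i ∈ F)
    (hF2 : ∀ (k : ℕ → ℕ) (s : G),
      (∀ j ≤ J + 1, (path u a k j)⁻¹ * s * path u a k j ∈ E0 a) → s ∈ F)
    (S₀ : Finset G) (L : ℕ) :
    ∃ k : ℕ → ℕ, (∀ i < L, ∀ j < L, k i = k j → i = j) ∧
      (∀ i < L, ∀ j < L, i ≠ j → (path u a k i)⁻¹ * path u a k j ∉ S₀) ∧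
      (∀ t, t ∉ F → ((range L ×ˢ range L).filter
        fun p => (path u a k p.1)⁻¹ * t * path u a k p.2 ∈ S₀).card ≤ J + 4) := by
  classical
  set S₁ : Finset G := insert 1 (S₀ ∪ S₀.image (·⁻¹)) with hS₁
  have hS0 : ∀ s ∈ S₀, s ∈ S₁ := fun s hs => by simp [hS₁, hs]
  have hSi : ∀ s ∈ S₀, s⁻¹ ∈ S₁ := fun s hs => by
    simp only [hS₁, mem_insert, mem_union, mem_image]
    exact Or.inr (Or.inr ⟨s, hs, rfl⟩)
  have hS1 : (1 : G) ∈ S₁ := by simp [hS₁]
  obtain ⟨k, hk⟩ := exists_avoid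
    (ι := (Fin L × Fin L × Fin L × Fin L × S₁ × S₁) ⊕ (Fin L × Fin L × Fin L × S₁ × S₁) ⊕
      (Fin L × Fin L))
    (Sum.elim
      (fun p k => (p.2.1 : ℕ) ≤ p.1 ∧ (p.2.2.1 : ℕ) ≤ p.1 ∧ (p.2.2.2.1 : ℕ) ≤ p.1 ∧
        path u a k (p.1 + 1) * p.2.2.2.2.1 * (path u a k p.2.1)⁻¹ =
          path u a k p.2.2.1 * p.2.2.2.2.2 * (path u a k p.2.2.2.1)⁻¹)
      (Sum.elim
        (fun p k => (p.1 : ℕ) ≤ p.2.1 ∧
          path u a k p.1 * p.2.2.2.1 * (path u a k p.1)⁻¹ =
            path u a k (p.2.1 + 1 + p.2.2.1) * p.2.2.2.2 * (path u a k (p.2.1 + 1 + p.2.2.1))⁻¹ ∧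
          (path u a k p.2.1 * u)⁻¹ * (path u a k p.1 * p.2.2.2.1 * (path u a k p.1)⁻¹) *
            (path u a k p.2.1 * u) ∉ E0 a)
        (fun p k => (p.1 : ℕ) ≠ p.2 ∧ k p.1 = k p.2)))
    (by
      rintro (p | p | p)
      · exact thinA a u ha _ _ _ _ _ _
      · exact thinB a u _ _ _ _ _
      · exact thinC _ _)
  have hA : ∀ n < L, ∀ j < n, ∀ i' < n, ∀ j' < n, ∀ s ∈ S₁, ∀ s' ∈ S₁,
      path u a k n * s * (path u a k j)⁻¹ ≠ path u a k i' * s' * (path u a k j')⁻¹ := by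
    intro n hn j hj i' hi' j' hj' s hs s' hs' heq
    obtain ⟨n, rfl⟩ : ∃ m, n = m + 1 := ⟨n - 1, by omega⟩
    exact hk (Sum.inl (⟨n, by omega⟩, ⟨j, by omega⟩, ⟨i', by omega⟩, ⟨j', by omega⟩,
      ⟨s, hs⟩, ⟨s', hs'⟩)) ⟨by simp; omega, by simp; omega, by simp; omega, heq⟩
  have hA3 : ∀ n < L, ∀ j < n, ∀ s ∈ S₁, ∀ s' ∈ S₁, path u a k n * s ≠ path u a k j * s' := by
    intro n hn j hj s hs s' hs' heq
    exact hA n hn j hj j hj j hj s hs s' hs' (by rw [heq])
  have hB : ∀ i' < L, ∀ r < i', ∀ i ≤ r, ∀ s ∈ S₁, ∀ s' ∈ S₁,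
      path u a k i * s * (path u a k i)⁻¹ = path u a k i' * s' * (path u a k i')⁻¹ →
      (path u a k r * u)⁻¹ * (path u a k i * s * (path u a k i)⁻¹) * (path u a k r * u) ∈
        E0 a := by
    intro i' hi' r hr i hi s hs s' hs' heq
    obtain ⟨d, rfl⟩ : ∃ d, i' = r + 1 + d := ⟨i' - (r + 1), by omega⟩
    by_contra hcon
    exact hk (Sum.inr (Sum.inl (⟨i, by omega⟩, ⟨r, by omega⟩, ⟨d, by omega⟩,
      ⟨s, hs⟩, ⟨s', hs'⟩))) ⟨hi, heq, hcon⟩
  refine ⟨k, ?_, ?_, ?_⟩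
  · intro i hi j hj hij
    by_contra hne
    exact hk (Sum.inr (Sum.inr (⟨i, hi⟩, ⟨j, hj⟩))) ⟨hne, hij⟩
  · intro i hi j hj hij hmem
    rcases lt_or_gt_of_ne hij with h | h
    · exact hA3 j hj i h 1 hS1 _ (hS0 _ hmem) (by group)
    · exact hA3 i hi j h _ (hS0 _ hmem) 1 hS1 (by group)
  · intro t ht
    set y := path u a k with hy
    set M := (range L ×ˢ range L).filter fun p => (y p.1)⁻¹ * t * y p.2 ∈ S₀ with hM
    have hMm : ∀ p ∈ M, p.1 < L ∧ p.2 < L ∧ (y p.1)⁻¹ * t * y p.2 ∈ S₀ := by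
      intro p hp
      simp only [hM, mem_filter, mem_product, mem_range] at hp
      exact ⟨hp.1.1, hp.1.2, hp.2⟩
    have hsplit : M ⊆ (M.filter fun p => p.1 < p.2) ∪ (M.filter fun p => p.2 < p.1) ∪
        (M.filter fun p => p.1 = p.2) := by
      intro p hp
      simp only [mem_union, mem_filter, hp, true_and]
      omega
    have h1 : (M.filter fun p => p.1 < p.2).card ≤ 1 := by
      rw [card_le_one]
      have key : ∀ p ∈ M, ∀ q ∈ M, p.1 < p.2 → q.1 < q.2 → ¬ p.2 < q.2 := by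
        intro p hp q hq hp' hq' hlt
        obtain ⟨-, -, hs⟩ := hMm p hp
        obtain ⟨-, hL, hs'⟩ := hMm q hq
        exact hA q.2 hL q.1 hq' p.2 hlt p.1 (by omega) _ (hSi _ hs') _ (hSi _ hs) (by group)
      have key2 : ∀ p ∈ M, ∀ q ∈ M, p.2 = q.2 → ¬ p.1 < q.1 := by
        intro p hp q hq he hlt
        obtain ⟨-, -, hs⟩ := hMm p hp
        obtain ⟨hL, -, hs'⟩ := hMm q hq
        exact hA3 q.1 hL p.1 hlt _ (hS0 _ hs') _ (hS0 _ hs) (by rw [he]; group)
      intro p hp q hq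
      rw [mem_filter] at hp hq
      have e2 : p.2 = q.2 := by
        have := key p hp.1 q hq.1 hp.2 hq.2
        have := key q hq.1 p hp.1 hq.2 hp.2
        omega
      have e1 : p.1 = q.1 := by
        have := key2 p hp.1 q hq.1 e2
        have := key2 q hq.1 p hp.1 e2.symm
        omega
      exact Prod.ext e1 e2
    have h2 : (M.filter fun p => p.2 < p.1).card ≤ 1 := by
      rw [card_le_one]
      have key : ∀ p ∈ M, ∀ q ∈ M, p.2 < p.1 → q.2 < q.1 → ¬ p.1 < q.1 := by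
        intro p hp q hq hp' hq' hlt
        obtain ⟨-, -, hs⟩ := hMm p hp
        obtain ⟨hL, -, hs'⟩ := hMm q hq
        exact hA q.1 hL q.2 hq' p.1 hlt p.2 (by omega) _ (hS0 _ hs') _ (hS0 _ hs) (by group)
      have key2 : ∀ p ∈ M, ∀ q ∈ M, p.1 = q.1 → ¬ p.2 < q.2 := by
        intro p hp q hq he hlt
        obtain ⟨-, -, hs⟩ := hMm p hp
        obtain ⟨-, hL, hs'⟩ := hMm q hq
        exact hA3 q.2 hL p.2 hlt _ (hSi _ hs') _ (hSi _ hs) (by rw [he]; group)
      intro p hp q hq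
      rw [mem_filter] at hp hq
      have e1 : p.1 = q.1 := by
        have := key p hp.1 q hq.1 hp.2 hq.2
        have := key q hq.1 p hp.1 hq.2 hp.2
        omega
      have e2 : p.2 = q.2 := by
        have := key2 p hp.1 q hq.1 e1
        have := key2 q hq.1 p hp.1 e1.symm
        omega
      exact Prod.ext e1 e2
    have h3 : (M.filter fun p => p.1 = p.2).card ≤ J + 2 := by
      have key : ∀ p ∈ M, ∀ q ∈ M, p.1 = p.2 → q.1 = q.2 → q.1 ≤ p.1 + (J + 1) := by
        intro p hp q hq hp' hq'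
        by_contra hlt
        obtain ⟨-, -, hs⟩ := hMm p hp
        obtain ⟨hL, -, hs'⟩ := hMm q hq
        rw [← hp'] at hs
        rw [← hq'] at hs'
        apply ht
        rw [hF1 k (p.1 + 1)]
        apply hF2 (fun n => k (p.1 + 1 + n))
        intro j hj
        have h := hB q.1 hL (p.1 + j) (by omega) p.1 (by omega) _ (hS0 _ hs) _ (hS0 _ hs')
          (by group)
        have h' := (E0 a).mul_mem ((E0 a).mul_mem ((E0 a).inv_mem (pow_mem_E0 a (k (p.1 + j)))) h)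
          (pow_mem_E0 a (k (p.1 + j)))
        have e : y (p.1 + 1) * path u a (fun n => k (p.1 + 1 + n)) j =
            y (p.1 + j) * u * a ^ k (p.1 + j) := by
          rw [hy, ← path_add, ← path_succ]
          congr 1
          omega
        convert h' using 1
        calc _ = (y (p.1 + 1) * path u a (fun n => k (p.1 + 1 + n)) j)⁻¹ * t *
              (y (p.1 + 1) * path u a (fun n => k (p.1 + 1 + n)) j) := by rw [hy]; group
          _ = _ := by rw [e]; group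
      rcases (M.filter fun p => p.1 = p.2).eq_empty_or_nonempty with he | hne
      · simp [he]
      · obtain ⟨p, hp, hmin⟩ := exists_min_image _ (fun p : ℕ × ℕ => p.1) hne
        have : (M.filter fun p => p.1 = p.2).card ≤ (Icc p.1 (p.1 + (J + 1))).card := by
          refine card_le_card_of_injOn (fun q => q.1) ?_ ?_
          · intro q hq
            have hq' := mem_filter.1 hq
            have hp' := mem_filter.1 hp
            simp only [coe_Icc, Set.mem_Icc]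
            exact ⟨hmin q hq, key p hp'.1 q hq'.1 hp'.2 hq'.2⟩
          · intro q hq q' hq' he
            have h1 := (mem_filter.1 hq).2
            have h2 := (mem_filter.1 hq').2
            exact Prod.ext he (by simp only at he; omega)
        rw [Nat.card_Icc] at this
        omega
    have := (card_le_card hsplit).trans ((card_union_le _ _).trans
      (Nat.add_le_add_right (card_union_le _ _) _))
    omega

end Pool.Agent.Work.MP_01d39a_al
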