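import Pool.Agent.Work.MP_01d39a_al.Star
import Pool.Agent.Work.MP_01d39a_al.Generic

namespace Pool.Agent.Work.MP_01d39a_al

open scoped RealInnerProductSpace
open Finset Filter

lemma reidx {G : Type*} (A : Finset G) (l : ℕ) (f : G × ℕ → ℝ) :
    ∑ α ∈ A ×ˢ range 2, ∑ r ∈ range l, f (α.1, α.2 * l + r) = ∑ p ∈ A ×ˢ range (2 * l), f p := by
  rw [Finset.sum_product, Finset.sum_product]
  refine Finset.sum_congr rfl fun x _ => ?_
  rw [two_mul, Finset.sum_range_add, Finset.sum_range_succ, Finset.sum_range_one]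
  simp

lemma reidx2 {G : Type*} (A : Finset G) (l : ℕ) (f : G × ℕ → G × ℕ → ℝ) :
    ∑ α ∈ A ×ˢ range 2, ∑ β ∈ A ×ˢ range 2, ∑ ρ ∈ range l ×ˢ range l,
      f (α.1, α.2 * l + ρ.1) (β.1, β.2 * l + ρ.2) =
    ∑ p ∈ A ×ˢ range (2 * l), ∑ q ∈ A ×ˢ range (2 * l), f p q := by
  rw [← reidx A l (fun p => ∑ q ∈ A ×ˢ range (2 * l), f p q)]
  refine Finset.sum_congr rfl fun α _ => ?_
  simp only [Finset.sum_product (s := range l) (t := range l)]
  rw [Finset.sum_comm]
  refine Finset.sum_congr rfl fun r _ => ?_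
  rw [← reidx A l (fun q => f (α.1, α.2 * l + r) q)]

namespace Cfg

variable {G E : Type*} [Group G] [NormedAddCommGroup E] [InnerProductSpace ℝ E] (c : Cfg G E)

theorem rank_bound (F : Subgroup G) (J : ℕ)
    (hF1 : ∀ (k : ℕ → ℕ) (i : ℕ) (f : G),
      f ∈ F ↔ (path c.u c.a k i)⁻¹ * f * path c.u c.a k i ∈ F)
    (hF2 : ∀ (k : ℕ → ℕ) (s : G),
      (∀ j ≤ J + 1, (path c.u c.a k j)⁻¹ * s * path c.u c.a k j ∈ E0 c.a) → s ∈ F) :
    ∃ (k : ℕ → ℕ) (l : ℕ), ∀ A : Finset G, (∀ x ∈ A, ∀ x' ∈ A, x ≠ x' → x'⁻¹ * x ∉ F) →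
      ∀ Z : Finset E, (∀ x ∈ A, ∀ j ≤ 2, c.P (x * path c.u c.a k (j * l)) ∈ Z) →
        A.card ≤ Z.card := by
  classical
  have hM := c.M_pos
  have hm := c.m_pos
  set C : ℝ := ((J + 4 : ℕ) : ℝ) with hC
  have hC0 : 0 < C := by positivity
  set θ := min 1 (c.m / (80 * C * c.M)) with hθ
  have hθ0 : 0 < θ := by positivity
  obtain ⟨L₀, hL₀⟩ := eventually_atTop.1 (c.star θ hθ0)
  set l := L₀ + 1 with hl
  have hl0 : (0 : ℝ) < l := by positivity
  set ε := c.m / (10 * l) with hε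
  have hε0 : 0 < ε := by positivity
  obtain ⟨S₀, hS₀, htail⟩ := c.exists_tail (ε ^ 2) (by positivity)
  obtain ⟨k, hk1, hk2, hk3⟩ := exists_generic c.a c.u c.pow_inj F J hF1 hF2 S₀ (2 * l)
  have hsmall : ∀ t, t ∉ S₀ → |c.h t| ≤ ε := by
    intro t ht
    have := htail {t}
    simp only [sum_singleton, if_neg ht] at this
    exact abs_le_of_sq_le_sq' this hε0.le |> abs_le.2
  have hgood : c.Good (2 * l) k := by
    refine ⟨hk1, fun i hi j hj hij => ?_⟩
    have := hsmall _ (hk2 i hi j hj hij)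
    calc _ ≤ ε * ((2 * l : ℕ) : ℝ) := by gcongr
      _ = c.m / 5 := by rw [hε]; push_cast; field_simp; ring
      _ ≤ _ := by linarith
  refine ⟨k, l, fun A hA Z hZ => ?_⟩
  have hstar := hL₀ (2 * l) (by omega) k hgood A
  set y := path c.u c.a k with hy
  set I := A ×ˢ range 2 with hI
  set v : G × ℕ → E := fun α => ∑ r ∈ range l, c.e (α.1 * y (α.2 * l + r)) with hv
  set g : G × ℕ → G × ℕ → ℕ × ℕ → G := fun α β ρ =>
    (β.1 * y (β.2 * l + ρ.2))⁻¹ * (α.1 * y (α.2 * l + ρ.1)) with hg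
  have hinner : ∀ α β, ⟪v α, v β⟫ = ∑ ρ ∈ range l ×ˢ range l, c.h (g α β ρ) := by
    intro α β
    rw [Finset.sum_product]
    simp only [hv, hg]
    rw [sum_inner]
    refine Finset.sum_congr rfl fun r _ => ?_
    rw [inner_sum]
    simp only [inner_e]
  have hidx : ∀ α ∈ I, ∀ r < l, α.2 * l + r < 2 * l := by
    intro α hα r hr
    have h2 := mem_range.1 (mem_product.1 hα).2
    have : α.2 * l ≤ 1 * l := Nat.mul_le_mul_right _ (by omega)
    omega
  have hspan : ∀ α ∈ I, v α ∈ Submodule.span ℝ (Z : Set E) := by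
    intro α hα
    obtain ⟨h1, h2⟩ := mem_product.1 hα
    rw [mem_range] at h2
    have := c.telescope k α.1 (α.2 * l) l
    simp only [hv, hy]
    rw [← this]
    refine Submodule.sub_mem _ (Submodule.subset_span ?_) (Submodule.subset_span ?_)
    · have := hZ _ h1 (α.2 + 1) (by omega)
      rwa [add_mul, one_mul] at this
    · exact hZ _ h1 α.2 (by omega)
  have hdiag : ∀ α ∈ I, |⟪v α, v α⟫ - l * c.m| ≤ l * c.m / 10 := by
    intro α hα
    have e1 : (l : ℝ) * c.m = ∑ ρ ∈ range l ×ˢ range l, if ρ.1 = ρ.2 then c.m else 0 := by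
      rw [Finset.sum_product, Finset.sum_congr rfl (g := fun _ => c.m) (fun r hr => by
        simp only
        rw [Finset.sum_ite_eq, if_pos hr])]
      simp
    rw [hinner]
    conv_lhs => rw [e1]
    rw [← Finset.sum_sub_distrib]
    refine (Finset.abs_sum_le_sum_abs _ _).trans ?_
    calc _ ≤ ∑ _ρ ∈ range l ×ˢ range l, ε := by
          refine Finset.sum_le_sum fun ρ hρ => ?_
          obtain ⟨h1, h2⟩ := mem_product.1 hρ
          rw [mem_range] at h1 h2
          split_ifs with h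
          · simp [hg, h, h_one, hε0.le]
          · rw [sub_zero]
            apply hsmall
            have := hk2 _ (hidx α hα _ h2) _ (hidx α hα _ h1) (by omega)
            convert this using 1
            simp only [hg]
            group
      _ = _ := by
          simp only [sum_const, card_product, card_range, nsmul_eq_mul, hε]
          push_cast
          field_simp
  have hoff : ∀ α ∈ I, ∀ β ∈ I, α ≠ β → ⟪v α, v β⟫ ^ 2 ≤
      2 * C * ∑ ρ ∈ range l ×ˢ range l, c.h (g α β ρ) ^ 2 +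
      2 * l ^ 2 * ∑ ρ ∈ range l ×ˢ range l,
        (if g α β ρ ∈ S₀ then 0 else c.h (g α β ρ)) ^ 2 := by
    intro α hα β hβ hne
    set T := (range l ×ˢ range l).filter fun ρ => g α β ρ ∈ S₀ with hT
    have hTc : (T.card : ℝ) ≤ C := by
      rw [hC, Nat.cast_le]
      by_cases hx : α.1 = β.1
      · have : T = ∅ := by
          rw [hT, filter_eq_empty_iff]
          intro ρ hρ
          obtain ⟨h1, h2⟩ := mem_product.1 hρ
          rw [mem_range] at h1 h2
          have h3 : α.2 ≠ β.2 := fun h => hne (Prod.ext hx h)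
          have h4 := mem_range.1 (mem_product.1 hα).2
          have h5 := mem_range.1 (mem_product.1 hβ).2
          have h6 : β.2 * l + ρ.2 ≠ α.2 * l + ρ.1 := by
            have : (α.2 = 0 ∧ β.2 = 1) ∨ (α.2 = 1 ∧ β.2 = 0) := by omega
            rcases this with ⟨h7, h8⟩ | ⟨h7, h8⟩ <;> rw [h7, h8] <;> omega
          have := hk2 _ (hidx β hβ _ h2) _ (hidx α hα _ h1) h6
          convert this using 1
          simp only [hg, hx]
          group
        simp [this]
      · refine le_trans ?_ (hk3 _ (hA _ (mem_product.1 hα).1 _ (mem_product.1 hβ).1 hx))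
        refine card_le_card_of_injOn (fun ρ => (β.2 * l + ρ.2, α.2 * l + ρ.1)) ?_ ?_
        · intro ρ hρ
          obtain ⟨h0, h3⟩ := mem_filter.1 hρ
          obtain ⟨h1, h2⟩ := mem_product.1 h0
          rw [mem_range] at h1 h2
          refine mem_filter.2 ⟨mem_product.2 ⟨mem_range.2 (hidx β hβ _ h2),
            mem_range.2 (hidx α hα _ h1)⟩, ?_⟩
          convert h3 using 1
          simp only [hg]
          group
        · intro ρ _ ρ' _ he
          simp only [Prod.mk.injEq] at he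
          exact Prod.ext (by omega) (by omega)
    have e1 : ⟪v α, v β⟫ = ∑ ρ ∈ T, c.h (g α β ρ) + ∑ ρ ∈ range l ×ˢ range l,
        (if g α β ρ ∈ S₀ then 0 else c.h (g α β ρ)) := by
      rw [hinner, hT, Finset.sum_filter, ← Finset.sum_add_distrib]
      refine Finset.sum_congr rfl fun ρ _ => ?_
      split_ifs <;> simp
    have h1 : (∑ ρ ∈ T, c.h (g α β ρ)) ^ 2 ≤
        C * ∑ ρ ∈ range l ×ˢ range l, c.h (g α β ρ) ^ 2 := by
      refine sq_sum_le_card_mul_sum_sq.trans ?_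
      gcongr
      exact filter_subset _ _
    have h2 : (∑ ρ ∈ range l ×ˢ range l, (if g α β ρ ∈ S₀ then 0 else c.h (g α β ρ))) ^ 2 ≤
        l ^ 2 * ∑ ρ ∈ range l ×ˢ range l, (if g α β ρ ∈ S₀ then 0 else c.h (g α β ρ)) ^ 2 := by
      refine sq_sum_le_card_mul_sum_sq.trans (le_of_eq ?_)
      simp [sq]
    rw [e1]
    nlinarith [sq_nonneg (∑ ρ ∈ T, c.h (g α β ρ) - ∑ ρ ∈ range l ×ˢ range l,
        (if g α β ρ ∈ S₀ then 0 else c.h (g α β ρ)))]
  have hall : ∀ α ∈ I, ∀ β ∈ I, ⟪v α, v β⟫ ^ 2 ≤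
      (if α = β then (11 / 10 * (l * c.m)) ^ 2 else 0) +
      2 * C * ∑ ρ ∈ range l ×ˢ range l, c.h (g α β ρ) ^ 2 +
      2 * l ^ 2 * ∑ ρ ∈ range l ×ˢ range l,
        (if g α β ρ ∈ S₀ then 0 else c.h (g α β ρ)) ^ 2 := by
    intro α hα β hβ
    split_ifs with h
    · subst h
      have h1 := abs_le.1 (hdiag α hα)
      have h2 : (0 : ℝ) ≤ ⟪v α, v α⟫ := real_inner_self_nonneg
      have h3 : ⟪v α, v α⟫ ^ 2 ≤ (11 / 10 * (l * c.m)) ^ 2 := by
        gcongr
        linarith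
      have h4 : 0 ≤ 2 * C * ∑ ρ ∈ range l ×ˢ range l, c.h (g α α ρ) ^ 2 := by positivity
      have h5 : 0 ≤ 2 * (l : ℝ) ^ 2 * ∑ ρ ∈ range l ×ˢ range l,
        (if g α α ρ ∈ S₀ then 0 else c.h (g α α ρ)) ^ 2 := by positivity
      linarith
    · rw [zero_add]
      exact hoff α hα β hβ h
  have k1 := kernel_sum (A ×ˢ range (2 * l)) (fun p => p.1 * y p.2) (fun t => c.h t ^ 2)
    (fun _ => sq_nonneg _) (fun t => by rw [h_inv]) _ c.sum_h_sq
  have k2 := kernel_sum (A ×ˢ range (2 * l)) (fun p => p.1 * y p.2)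
    (fun t => (if t ∈ S₀ then 0 else c.h t) ^ 2)
    (fun _ => sq_nonneg _) (fun t => by simp only [h_inv, hS₀]) _ htail
  rw [← reidx2 A l (fun p q => c.h ((q.1 * y q.2)⁻¹ * (p.1 * y p.2)) ^ 2)] at k1
  rw [← reidx2 A l (fun p q => (if (q.1 * y q.2)⁻¹ * (p.1 * y p.2) ∈ S₀ then 0 else
    c.h ((q.1 * y q.2)⁻¹ * (p.1 * y p.2))) ^ 2)] at k2
  have hIc : (I.card : ℝ) = 2 * A.card := by simp [hI, mul_comm]
  have hA0 : (0 : ℝ) ≤ A.card := Nat.cast_nonneg _
  have hsum : ∑ α ∈ I, ∑ β ∈ I, ⟪v α, v β⟫ ^ 2 ≤ 26 / 10 * (l * c.m) ^ 2 * A.card := by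
    have h1 := Finset.sum_le_sum fun α hα => Finset.sum_le_sum fun β hβ => hall α hα β hβ
    simp only [Finset.sum_add_distrib, ← Finset.mul_sum] at h1
    have e0 : ∑ α ∈ I, ∑ β ∈ I, (if α = β then (11 / 10 * (l * c.m)) ^ 2 else 0) =
        2 * A.card * (11 / 10 * (l * c.m)) ^ 2 := by
      rw [Finset.sum_congr rfl (g := fun _ => (11 / 10 * (l * c.m)) ^ 2) (fun α hα => by
        rw [Finset.sum_ite_eq, if_pos hα])]
      simp only [sum_const, nsmul_eq_mul, hIc]
    rw [e0] at h1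
    have h2 := k1.trans (mul_le_mul_of_nonneg_left hstar (by positivity))
    have h3 := k2.trans (mul_le_mul_of_nonneg_left hstar (by positivity))
    have h4 : θ ≤ 1 := min_le_left _ _
    have h5 : θ ≤ c.m / (80 * C * c.M) := min_le_right _ _
    have h6 : 2 * C * (c.M * c.m * (θ * ((2 * l : ℕ) : ℝ) ^ 2 * A.card)) ≤
        1 / 10 * (l * c.m) ^ 2 * A.card := by
      calc _ ≤ 2 * C * (c.M * c.m * (c.m / (80 * C * c.M) * ((2 * l : ℕ) : ℝ) ^ 2 * A.card)) := by
            gcongr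
        _ = _ := by push_cast; field_simp; ring
    have h7 : 2 * (l : ℝ) ^ 2 * (ε ^ 2 * (θ * ((2 * l : ℕ) : ℝ) ^ 2 * A.card)) ≤
        8 / 100 * (l * c.m) ^ 2 * A.card := by
      calc _ ≤ 2 * (l : ℝ) ^ 2 * (ε ^ 2 * (1 * ((2 * l : ℕ) : ℝ) ^ 2 * A.card)) := by
            gcongr
        _ = _ := by rw [hε]; push_cast; field_simp; ring
    have h8 := mul_le_mul_of_nonneg_left h2 (show 0 ≤ 2 * C by positivity)
    have h9 := mul_le_mul_of_nonneg_left h3 (show 0 ≤ 2 * (l : ℝ) ^ 2 by positivity)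
    simp only [hg] at h1
    linarith
  have hlow : 18 / 10 * (l * c.m) * A.card ≤ ∑ α ∈ I, ‖v α‖ ^ 2 := by
    have h1 : ∀ α ∈ I, 9 / 10 * (l * c.m) ≤ ‖v α‖ ^ 2 := by
      intro α hα
      have h1 := abs_le.1 (hdiag α hα)
      rw [real_inner_self_eq_norm_sq] at h1
      linarith
    have h2 := Finset.sum_le_sum h1
    simp only [sum_const, nsmul_eq_mul, hIc] at h2
    linarith
  have hsm := second_moment Z I v hspan
  have hfin : (18 / 10 * (l * c.m) * A.card) ^ 2 ≤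
      Z.card * (26 / 10 * (l * c.m) ^ 2 * A.card) := by
    refine le_trans (by gcongr) (hsm.trans ?_)
    gcongr
  by_contra hcon
  push Not at hcon
  have h1 : (Z.card : ℝ) < A.card := by exact_mod_cast hcon
  have h2 : (0 : ℝ) < A.card := lt_of_le_of_lt (Nat.cast_nonneg _) h1
  have h3 : (0 : ℝ) < (l * c.m) ^ 2 * A.card := by positivity
  nlinarith

end Cfg

end Pool.Agent.Work.MP_01d39a_al
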