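import Pool.Agent.Work.MP_01d39a_al.Core
import Pool.Agent.Work.MP_01d39a_al.Finite

namespace Pool.Agent.Work.MP_01d39a_al

open scoped InnerProductSpace
open Filter Topology

theorem paradoxical_of_complex {G E : Type*} [Group G] [NormedAddCommGroup E]
    [InnerProductSpace ℂ E] (P : G → E) (a u : G) (ha : ∀ k : ℤ, a ^ k = 1 → k = 0)
    (hinv : ∀ t x y x' y', ⟪P (t * x) - P (t * y), P (t * x') - P (t * y')⟫_ℂ =
      ⟪P x - P y, P x' - P y'⟫_ℂ)
    (hfix : ∀ x, P (x * a) = P x)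
    (hb : ∀ g, ∃ M : ℝ, 0 < M ∧
      ∀ (Y : Finset G) (v : E), ∑ x ∈ Y, ‖⟪P (x * g) - P x, v⟫_ℂ‖ ^ 2 ≤ M * ‖v‖ ^ 2)
    (hne : P u ≠ P 1) : HasParadoxicalDecomposition G 2 3 := by
  let : InnerProductSpace ℝ E := InnerProductSpace.rclikeToReal ℂ E
  have hre : ∀ v w : E, ⟪v, w⟫_ℝ = RCLike.re ⟪v, w⟫_ℂ := fun v w => rfl
  refine Cfg.paradoxical (E := E)
    { P := P, a := a, u := u, ha := ha, fix := hfix, ne := hne
      inv := fun t x y x' y' => by rw [hre, hre, hinv]
      bessel := fun g => ?_ }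
  obtain ⟨M, hM, h⟩ := hb g
  refine ⟨M, hM, fun Y v => le_trans (Finset.sum_le_sum fun x _ => ?_) (h Y v)⟩
  rw [hre, ← sq_abs]
  gcongr
  exact RCLike.abs_re_le_norm _

variable {G : Type*}

/-- Precomposition with a permutation, as a linear map. -/
def compL (φ : G ≃ G) : L2 G →ₗ[ℂ] L2 G where
  toFun v := ⟨fun x => v (φ x), memℓp_gen
    (φ.summable_iff.2 ((lp.memℓp v).summable (by norm_num)))⟩
  map_add' _ _ := rfl
  map_smul' _ _ := rfl

lemma compL_apply (φ : G ≃ G) (v : L2 G) (x : G) : compL φ v x = v (φ x) := rfl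

lemma compL_inner (φ : G ≃ G) (v w : L2 G) : ⟪compL φ v, w⟫_ℂ = ⟪v, compL φ.symm w⟫_ℂ := by
  rw [lp.inner_eq_tsum, lp.inner_eq_tsum, ← φ.symm.tsum_eq]
  simp [compL_apply]

lemma compL_norm (φ : G ≃ G) (v : L2 G) : ‖compL φ v‖ = ‖v‖ := by
  have h : compL φ.symm (compL φ v) = v := by
    ext x
    simp [compL_apply]
  rw [@norm_eq_sqrt_re_inner ℂ, @norm_eq_sqrt_re_inner ℂ _ _ _ _ v, compL_inner, h]

/-- Precomposition with a permutation, as a continuous linear map. -/
noncomputable def comp (φ : G ≃ G) : L2 G →L[ℂ] L2 G :=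
  (compL φ).mkContinuous 1 fun v => by rw [compL_norm, one_mul]

@[simp] lemma comp_apply (φ : G ≃ G) (v : L2 G) (x : G) : comp φ v x = v (φ x) := rfl

lemma comp_inner (φ : G ≃ G) (v w : L2 G) : ⟪comp φ v, w⟫_ℂ = ⟪v, comp φ.symm w⟫_ℂ :=
  compL_inner φ v w

variable [Group G]

lemma leftReg_eq (g : G) (v : L2 G) : leftReg g v = comp (Equiv.mulLeft g⁻¹) v := rfl

@[simp] lemma leftReg_apply (g : G) (v : L2 G) (x : G) : leftReg g v x = v (g⁻¹ * x) := rfl

lemma eq_zero_of_fixed {a : G} (ha : ∀ k : ℤ, a ^ k = 1 → k = 0) (ξ : L2 G)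
    (h : ∀ x, ξ (a⁻¹ * x) = ξ x) : ξ = 0 := by
  ext x
  have h1 : ∀ n : ℕ, ξ ((a ^ n)⁻¹ * x) = ξ x := by
    intro n
    induction n with
    | zero => simp
    | succ n ih => rw [← ih, ← h ((a ^ n)⁻¹ * x), pow_succ, mul_inv_rev, mul_assoc]
  have hinj : Function.Injective fun n : ℕ => (a ^ n)⁻¹ * x := by
    intro i j hij
    have h2 : a ^ i = a ^ j := by simpa using hij
    have := ha ((i : ℤ) - j) (by rw [zpow_sub, zpow_natCast, zpow_natCast, h2]; simp)
    omega
  have h2 := ((lp.memℓp ξ).summable (by norm_num)).comp_injective hinj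
  have h3 : Summable fun _ : ℕ => ‖ξ x‖ ^ (2 : ENNReal).toReal := by
    refine h2.congr fun n => ?_
    simp only [Function.comp, h1]
  have h4 := tendsto_const_nhds_iff.1 h3.tendsto_atTop_zero
  simpa using h4

/-- The space of square-summable 1-cochains. -/
abbrev HS (S : Finset G) : Type _ := PiLp 2 (fun _ : S => L2 G)

/-- Assemble a map into `HS S` from its components. -/
noncomputable def mkH {S : Finset G} {V : Type*} [NormedAddCommGroup V] [NormedSpace ℂ V]
    (f : S → V →L[ℂ] L2 G) : V →L[ℂ] HS S :=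
  (PiLp.continuousLinearEquiv 2 ℂ (fun _ : S => L2 G)).symm.toContinuousLinearMap ∘L
    ContinuousLinearMap.pi f

omit [Group G] in
@[simp] lemma mkH_apply {S : Finset G} {V : Type*} [NormedAddCommGroup V] [NormedSpace ℂ V]
    (f : S → V →L[ℂ] L2 G) (v : V) (s : S) : mkH f v s = f s v := rfl

/-- Translation action. -/
noncomputable def U (S : Finset G) (t : G) : HS S →L[ℂ] HS S :=
  mkH fun s => comp (Equiv.mulRight t) ∘L PiLp.proj 2 (fun _ : S => L2 G) s

@[simp] lemma U_apply {S : Finset G} (t : G) (w : HS S) (s : S) (x : G) :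
    U S t w s x = w s (x * t) := rfl

/-- The coboundary operator. -/
noncomputable def D (S : Finset G) : L2 G →L[ℂ] HS S :=
  mkH fun s => comp (Equiv.mulLeft (s : G)⁻¹) - 1

lemma D_apply' {S : Finset G} (v : L2 G) (s : S) : D S v s = leftReg (s : G) v - v := rfl

@[simp] lemma D_apply {S : Finset G} (v : L2 G) (s : S) (x : G) :
    D S v s x = v ((s : G)⁻¹ * x) - v x := rfl

lemma U_inner {S : Finset G} (t : G) (v w : HS S) : ⟪U S t v, w⟫_ℂ = ⟪v, U S t⁻¹ w⟫_ℂ := by
  simp only [PiLp.inner_apply]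
  refine Finset.sum_congr rfl fun s _ => ?_
  exact comp_inner (Equiv.mulRight t) (v s) (w s)

lemma U_star {S : Finset G} (t : G) : star (U S t) = U S t⁻¹ := by
  rw [ContinuousLinearMap.star_eq_adjoint, eq_comm, ContinuousLinearMap.eq_adjoint_iff]
  intro x y
  rw [U_inner, inv_inv]

lemma U_U {S : Finset G} (t : G) (w : HS S) : U S t⁻¹ (U S t w) = w := by
  ext s x
  simp

variable [DecidableEq G]

/-- Basis vectors. -/
noncomputable def dl {S : Finset G} (s : S) (x : G) : HS S :=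
  PiLp.single 2 s (lp.single 2 x⁻¹ (1 : ℂ))

lemma dl_inner {S : Finset G} (s : S) (x : G) (w : HS S) : ⟪dl s x, w⟫_ℂ = w s x⁻¹ := by
  rw [PiLp.inner_apply, Finset.sum_eq_single s]
  · simp [dl, lp.inner_single_left]
  · intro r _ hr
    simp [dl, hr]
  · simp

lemma parseval {S : Finset G} (v w : HS S) :
    ⟪v, w⟫_ℂ = ∑ s, ∑' x, ⟪v, dl s x⟫_ℂ * ⟪dl s x, w⟫_ℂ := by
  rw [PiLp.inner_apply]
  refine Finset.sum_congr rfl fun s _ => ?_
  rw [lp.inner_eq_tsum, ← (Equiv.inv G).tsum_eq]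
  refine tsum_congr fun x => ?_
  rw [← inner_conj_symm v, dl_inner, dl_inner]
  simp [mul_comm]

lemma U_dl {S : Finset G} (t : G) (s : S) (x : G) : U S t (dl s x) = dl s (t * x) := by
  refine ext_inner_right ℂ fun w => ?_
  rw [U_inner, dl_inner, dl_inner]
  simp

omit [DecidableEq G] in
lemma commute_starProjection {S : Finset G} (K : Submodule ℂ (HS S)) [K.HasOrthogonalProjection]
    (hK : ∀ t w, w ∈ K → U S t w ∈ K) (t : G) : Commute (U S t) K.starProjection := by
  ext1 v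
  change U S t (K.starProjection v) = K.starProjection (U S t v)
  refine (Submodule.eq_starProjection_of_mem_of_inner_eq_zero
    (hK _ _ (K.starProjection_apply_mem v)) fun w hw => ?_).symm
  rw [← map_sub, U_inner]
  exact Submodule.starProjection_inner_eq_zero _ _ (hK _ _ hw)

end Pool.Agent.Work.MP_01d39a_al
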