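import Pool.Agent.Work.MP_01d39a_al.L2a

namespace Pool.Agent.Work.MP_01d39a_al

open scoped InnerProductSpace
open Filter Topology

variable {G : Type*} [Group G] {S : Finset G}

/-- `f` is a potential for `w`. -/
def Pot (w : HS S) (f : G → ℂ) : Prop := ∀ (s : S) (x : G), w s x⁻¹ = f (x * s) - f x

/-- Cochains with a potential. -/
def Zsub (S : Finset G) : Submodule ℂ (HS S) where
  carrier := {w | ∃ f, Pot w f}
  zero_mem' := ⟨0, fun s x => by simp⟩
  add_mem' := by
    rintro w w' ⟨f, hf⟩ ⟨f', hf'⟩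
    refine ⟨f + f', fun s x => ?_⟩
    have : (w + w') s x⁻¹ = w s x⁻¹ + w' s x⁻¹ := rfl
    rw [this, hf, hf']
    simp only [Pi.add_apply]
    ring
  smul_mem' := by
    rintro z w ⟨f, hf⟩
    refine ⟨z • f, fun s x => ?_⟩
    have : (z • w) s x⁻¹ = z * w s x⁻¹ := rfl
    rw [this, hf]
    simp only [Pi.smul_apply, smul_eq_mul]
    ring

lemma Pot.U {w : HS S} {f : G → ℂ} (h : Pot w f) (t : G) :
    Pot (U S t⁻¹ w) fun z => f (t * z) := by
  intro s x
  rw [U_apply, ← mul_inv_rev, h, mul_assoc]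

lemma Zsub_U (t : G) (w : HS S) (hw : w ∈ Zsub S) : U S t w ∈ Zsub S := by
  obtain ⟨f, hf⟩ := hw
  have := hf.U t⁻¹
  rw [inv_inv] at this
  exact ⟨_, this⟩

lemma D_mem (v : L2 G) : D S v ∈ Zsub S :=
  ⟨fun y => v y⁻¹, fun s x => by simp⟩

lemma D_U (t : G) (v : L2 G) : U S t (D S v) = D S (comp (Equiv.mulRight t) v) := by
  ext s x
  simp [mul_assoc]

lemma exists_chain (hS : Subgroup.closure (S : Set G) = ⊤) (y : G) :
    ∃ χ : HS S, ∀ w f, Pot w f → ⟪χ, w⟫_ℂ = f y - f 1 := by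
  classical
  have hy : y ∈ Subgroup.closure (S : Set G) := by rw [hS]; trivial
  induction hy using Subgroup.closure_induction_right with
  | one => exact ⟨0, fun w f _ => by simp⟩
  | mul_right x _ s hs ih =>
    obtain ⟨χ, hχ⟩ := ih
    refine ⟨χ + dl ⟨s, hs⟩ x, fun w f h => ?_⟩
    rw [inner_add_left, hχ w f h, dl_inner, h]
    ring
  | mul_inv_cancel x _ s hs ih =>
    obtain ⟨χ, hχ⟩ := ih
    refine ⟨χ - dl ⟨s, hs⟩ (x * s⁻¹), fun w f h => ?_⟩
    rw [inner_sub_left, hχ w f h, dl_inner, h]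
    simp

lemma isClosed_Zsub (hS : Subgroup.closure (S : Set G) = ⊤) : IsClosed (Zsub S : Set (HS S)) := by
  classical
  choose χ hχ using exists_chain hS
  have : (Zsub S : Set (HS S)) =
      ⋂ (s : S) (x : G), {w | ⟪dl s x, w⟫_ℂ = ⟪χ (x * s), w⟫_ℂ - ⟪χ x, w⟫_ℂ} := by
    ext w
    simp only [Set.mem_iInter, Set.mem_ofPred_eq, dl_inner]
    constructor
    · rintro ⟨f, hf⟩ s x
      rw [hχ _ w f hf, hχ _ w f hf, hf]
      ring
    · intro h
      exact ⟨fun y => ⟪χ y, w⟫_ℂ, h⟩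
  rw [this]
  exact isClosed_iInter fun s => isClosed_iInter fun x => isClosed_eq (by fun_prop) (by fun_prop)

lemma pot_bessel (hS : Subgroup.closure (S : Set G) = ⊤) (g : G) : ∃ M : ℝ, 0 < M ∧
    ∀ (w : HS S) (f : G → ℂ), Pot w f → ∀ Y : Finset G,
      ∑ x ∈ Y, ‖f (x * g) - f x‖ ^ 2 ≤ M * ‖w‖ ^ 2 := by
  classical
  have key : ∀ (w : HS S) (s : S) (g : G) (Y : Finset G),
      ∑ x ∈ Y, ‖w s (x * g)⁻¹‖ ^ 2 ≤ ‖w‖ ^ 2 := by
    intro w s g Y
    have h1 := lp.sum_rpow_le_norm_rpow (p := 2) (by norm_num) (w s)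
      (Y.image fun x => (x * g)⁻¹)
    rw [Finset.sum_image (fun a _ b _ h => by simpa using h)] at h1
    simp only [ENNReal.toReal_ofNat, Real.rpow_ofNat] at h1
    refine h1.trans ?_
    gcongr
    exact PiLp.norm_apply_le w s
  have tri : ∀ p q : ℂ, ‖p + q‖ ^ 2 ≤ 2 * ‖p‖ ^ 2 + 2 * ‖q‖ ^ 2 := by
    intro p q
    have h1 := norm_add_le p q
    have h2 : ‖p + q‖ ^ 2 ≤ (‖p‖ + ‖q‖) ^ 2 := by gcongr
    nlinarith [sq_nonneg (‖p‖ - ‖q‖)]
  have hg : g ∈ Subgroup.closure (S : Set G) := by rw [hS]; trivial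
  induction hg using Subgroup.closure_induction_right with
  | one => exact ⟨1, one_pos, fun w f _ Y => by simp⟩
  | mul_right g _ s hs ih =>
    obtain ⟨M, hM, h⟩ := ih
    refine ⟨2 * M + 2, by positivity, fun w f hf Y => ?_⟩
    calc _ ≤ ∑ x ∈ Y, (2 * ‖f (x * g) - f x‖ ^ 2 + 2 * ‖w ⟨s, hs⟩ (x * g)⁻¹‖ ^ 2) := by
          refine Finset.sum_le_sum fun x _ => le_trans (le_of_eq ?_) (tri _ _)
          rw [hf, mul_assoc]
          simp
      _ ≤ _ := by
          rw [Finset.sum_add_distrib, ← Finset.mul_sum, ← Finset.mul_sum]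
          have := h w f hf Y
          have := key w ⟨s, hs⟩ g Y
          linarith
  | mul_inv_cancel g _ s hs ih =>
    obtain ⟨M, hM, h⟩ := ih
    refine ⟨2 * M + 2, by positivity, fun w f hf Y => ?_⟩
    calc _ ≤ ∑ x ∈ Y, (2 * ‖f (x * g) - f x‖ ^ 2 +
            2 * ‖-w ⟨s, hs⟩ (x * (g * s⁻¹))⁻¹‖ ^ 2) := by
          refine Finset.sum_le_sum fun x _ => le_trans (le_of_eq ?_) (tri _ _)
          rw [hf]
          simp [mul_assoc]
      _ ≤ _ := by
          simp only [norm_neg]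
          rw [Finset.sum_add_distrib, ← Finset.mul_sum, ← Finset.mul_sum]
          have := h w f hf Y
          have := key w ⟨s, hs⟩ (g * s⁻¹) Y
          linarith

lemma leftReg_mul (g h : G) (v : L2 G) : leftReg (g * h) v = leftReg g (leftReg h v) := by
  ext x
  simp [mul_assoc]

lemma leftReg_one (v : L2 G) : leftReg 1 v = v := by
  ext x
  simp

lemma cocycle_one {c : G → L2 G} (hc : c ∈ cocycles G) : c 1 = 0 := by
  have := hc 1 1
  rw [mul_one, leftReg_one] at this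
  simpa using this

lemma mem_closure_cob (hS : Subgroup.closure (S : Set G) = ⊤) {c : G → L2 G}
    (hc : c ∈ cocycles G) (ξ : ℕ → L2 G)
    (h : ∀ s : S, Tendsto (fun n => leftReg (s : G) (ξ n) - ξ n) atTop (𝓝 (c s))) :
    c ∈ closure (coboundaries G) := by
  refine mem_closure_of_tendsto (f := fun n g => leftReg g (ξ n) - ξ n) (b := atTop)
    (tendsto_pi_nhds.2 fun g => ?_) (Eventually.of_forall fun n => ⟨ξ n, fun _ => rfl⟩)
  have hcont : ∀ g : G, Continuous (leftReg g) := fun g => (comp (Equiv.mulLeft g⁻¹)).continuous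
  have hsub : ∀ (g : G) (v w : L2 G), leftReg g (v - w) = leftReg g v - leftReg g w :=
    fun g v w => (comp (Equiv.mulLeft g⁻¹)).map_sub v w
  have hg : g ∈ Subgroup.closure (S : Set G) := by rw [hS]; trivial
  induction hg using Subgroup.closure_induction_right with
  | one => simp [leftReg_one, cocycle_one hc]
  | mul_right g _ s hs ih =>
    rw [hc]
    refine (ih.add (((hcont g).tendsto _).comp (h ⟨s, hs⟩))).congr fun n => ?_
    simp only [Function.comp, hsub, leftReg_mul]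
    abel
  | mul_inv_cancel g _ s hs ih =>
    have e := hc (g * s⁻¹) s
    rw [inv_mul_cancel_right] at e
    rw [← sub_eq_iff_eq_add.2 e]
    refine (ih.sub (((hcont (g * s⁻¹)).tendsto _).comp (h ⟨s, hs⟩))).congr fun n => ?_
    simp only [Function.comp, hsub, ← leftReg_mul, inv_mul_cancel_right]
    abel

theorem exists_vanishing (hS : Subgroup.closure (S : Set G) = ⊤) (a : S)
    (ha : ∀ k : ℤ, (a : G) ^ k = 1 → k = 0) (hβ : ReducedH1Nonzero G) :
    ∃ w ∈ Zsub S, w a = 0 ∧ w ≠ 0 := by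
  classical
  by_contra hcon
  push Not at hcon
  obtain ⟨c, hc, hc'⟩ := hβ
  apply hc'
  have : CompleteSpace (Zsub S) := (isClosed_Zsub hS).completeSpace_coe
  set Pz := (Zsub S).starProjection with hPz
  set ev : HS S →L[ℂ] L2 G := PiLp.proj 2 (fun _ : S => L2 G) a with hev
  set A : HS S →L[ℂ] HS S := (D S ∘L ev) * Pz + (1 - Pz) with hA
  have hAv : ∀ v, A v = D S (Pz v a) + (v - Pz v) := fun v => rfl
  have hPc : ∀ t, Commute (U S t) Pz := commute_starProjection _ Zsub_U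
  have hAc : ∀ t, Commute (U S t) A := by
    intro t
    refine (Commute.mul_right ?_ (hPc t)).add_right ((Commute.one_right _).sub_right (hPc t))
    ext1 v
    exact D_U t (v a)
  have hAinj : ∀ v, A v = 0 → v = 0 := by
    intro v hv
    rw [hAv] at hv
    have h1 : v - Pz v ∈ (Zsub S)ᗮ := Submodule.sub_starProjection_mem_orthogonal v
    have h2 : v - Pz v ∈ Zsub S := by
      rw [eq_neg_of_add_eq_zero_right hv]
      exact (Zsub S).neg_mem (D_mem _)
    have h3 : v - Pz v = 0 := inner_self_eq_zero.1 ((Submodule.mem_orthogonal _ _).1 h1 _ h2)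
    rw [h3, add_zero] at hv
    have h4 : Pz v a = 0 := by
      refine eq_zero_of_fixed ha _ fun x => ?_
      have : D S (Pz v a) a x = 0 := by rw [hv]; rfl
      rwa [D_apply, sub_eq_zero] at this
    have h5 := hcon _ ((Zsub S).starProjection_apply_mem v) h4
    rw [← hPz] at h5
    rwa [h5, sub_zero] at h3
  set w₀ : HS S := WithLp.toLp 2 fun s => c s with hw₀
  have hw₀Z : w₀ ∈ Zsub S := ⟨fun y => c y 1, fun s x => by
    beta_reduce
    rw [hc x s]
    simp [hw₀]⟩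
  set Bb := (D S).range.topologicalClosure with hBb
  have hBZ : Bb ≤ Zsub S := Submodule.topologicalClosure_minimal _
    (by rintro _ ⟨v, rfl⟩; exact D_mem v) (isClosed_Zsub hS)
  have hw₁ : w₀ - Bb.starProjection w₀ = 0 := by
    refine eq_zero_of_orthogonal_range dl (U S) parseval U_dl U_star A hAc hAinj _ fun v => ?_
    rw [hAv, inner_add_left]
    have h1 : ⟪D S (Pz v a), w₀ - Bb.starProjection w₀⟫_ℂ = 0 :=
      (Submodule.mem_orthogonal _ _).1 (Submodule.sub_starProjection_mem_orthogonal w₀) _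
        (Submodule.le_topologicalClosure _ ⟨_, rfl⟩)
    have h2 : ⟪v - Pz v, w₀ - Bb.starProjection w₀⟫_ℂ = 0 :=
      Submodule.starProjection_inner_eq_zero _ _
        ((Zsub S).sub_mem hw₀Z (hBZ (Bb.starProjection_apply_mem _)))
    rw [h1, h2, add_zero]
  have hw₂ : w₀ ∈ closure ((D S).range : Set (HS S)) := by
    rw [sub_eq_zero.1 hw₁]
    exact Bb.starProjection_apply_mem _
  obtain ⟨b, hb, hlim⟩ := mem_closure_iff_seq_limit.1 hw₂
  choose ξ hξ using hb
  refine mem_closure_cob hS hc ξ fun s => ?_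
  have := ((PiLp.proj 2 (fun _ : S => L2 G) s : HS S →L[ℂ] L2 G).continuous.tendsto _).comp hlim
  refine this.congr fun n => ?_
  rw [← D_apply']
  simp only [Function.comp, ← hξ n]
  rfl

theorem paradoxical_of_reducedH1 [Group.FG G] (a : G) (ha : ¬ IsOfFinOrder a)
    (hβ : ReducedH1Nonzero G) : HasParadoxicalDecomposition G 2 3 := by
  classical
  have ha' : ∀ k : ℤ, a ^ k = 1 → k = 0 := by
    intro k hk
    by_contra h
    exact ha (isOfFinOrder_iff_zpow_eq_one.2 ⟨k, h, hk⟩)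
  obtain ⟨-, S₀, -, hS₀⟩ := Group.fg_iff'.1 ‹_›
  set S := insert a S₀ with hSdef
  have hS : Subgroup.closure (S : Set G) = ⊤ :=
    top_le_iff.1 (hS₀ ▸ Subgroup.closure_mono (by simp [hSdef]))
  set a' : S := ⟨a, Finset.mem_insert_self _ _⟩ with ha'def
  obtain ⟨w₀, ⟨f₀, hf₀⟩, hw₀a, hw₀⟩ := exists_vanishing hS a' ha' hβ
  set ev : HS S →L[ℂ] L2 G := PiLp.proj 2 (fun _ : S => L2 G) a' with hev
  set W : Submodule ℂ (HS S) := Zsub S ⊓ ev.ker with hW
  have hWmem : ∀ w, w ∈ W ↔ w ∈ Zsub S ∧ w a' = 0 := fun w => Iff.rfl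
  have : CompleteSpace W :=
    ((isClosed_Zsub hS).inter ev.isClosed_ker).completeSpace_coe
  have hWU : ∀ t w, w ∈ W → U S t w ∈ W := by
    intro t w hw
    refine (hWmem _).2 ⟨Zsub_U t w hw.1, ?_⟩
    ext x
    rw [U_apply, ((hWmem w).1 hw).2]
    rfl
  choose χ hχ using exists_chain hS
  set P : G → HS S := fun y => W.starProjection (χ y) with hP
  have hPW : ∀ y, P y ∈ W := fun y => W.starProjection_apply_mem _
  have hPin : ∀ x y w f, w ∈ W → Pot w f → ⟪P x - P y, w⟫_ℂ = f x - f y := by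
    intro x y w f hw hf
    simp only [hP, inner_sub_left, Submodule.inner_starProjection_left_eq_right,
      Submodule.starProjection_eq_self_iff.2 hw, hχ _ w f hf]
    ring
  have hext : ∀ p ∈ W, ∀ q ∈ W, (∀ w f, w ∈ W → Pot w f → ⟪p, w⟫_ℂ = ⟪q, w⟫_ℂ) → p = q := by
    intro p hp q hq h
    have h1 := W.sub_mem hp hq
    obtain ⟨f, hf⟩ := h1.1
    rw [← sub_eq_zero, ← inner_self_eq_zero (𝕜 := ℂ), inner_sub_left, h _ f h1 hf, sub_self]
  have hPU : ∀ t x y, P (t * x) - P (t * y) = U S t (P x - P y) := by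
    intro t x y
    refine hext _ (W.sub_mem (hPW _) (hPW _)) _ (hWU _ _ (W.sub_mem (hPW _) (hPW _))) ?_
    intro w f hw hf
    rw [hPin _ _ w f hw hf, U_inner, hPin _ _ _ _ (hWU _ _ hw) (hf.U t)]
  obtain ⟨u, hu⟩ : ∃ u, P u ≠ P 1 := by
    by_contra hcon
    push Not at hcon
    apply hw₀
    ext s x
    have h1 := hPin (x⁻¹ * s) x⁻¹ w₀ f₀ ((hWmem _).2 ⟨⟨f₀, hf₀⟩, hw₀a⟩) hf₀
    rw [hcon, hcon x⁻¹, sub_self, inner_zero_left, ← hf₀, inv_inv] at h1
    exact h1.symm
  refine paradoxical_of_complex P a u ha' ?_ ?_ ?_ hu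
  · intro t x y x' y'
    rw [hPU, hPU, U_inner, U_U]
  · intro x
    rw [← sub_eq_zero]
    refine hext _ (W.sub_mem (hPW _) (hPW _)) _ W.zero_mem fun w f hw hf => ?_
    rw [hPin _ _ w f hw hf, inner_zero_left, ← hf a' x, ((hWmem w).1 hw).2]
    rfl
  · intro g
    obtain ⟨M, hM, h⟩ := pot_bessel hS g
    refine ⟨M, hM, fun Y v => ?_⟩
    have h1 := W.starProjection_apply_mem v
    obtain ⟨f, hf⟩ := h1.1
    have h2 : ∀ x, ⟪P (x * g) - P x, v⟫_ℂ = f (x * g) - f x := by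
      intro x
      rw [← hPin _ _ _ f h1 hf, ← Submodule.inner_starProjection_left_eq_right,
        Submodule.starProjection_eq_self_iff.2 (W.sub_mem (hPW _) (hPW _))]
    simp only [h2]
    refine (h _ f hf Y).trans ?_
    gcongr
    exact W.norm_starProjection_apply_le v

end Pool.Agent.Work.MP_01d39a_al
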