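import Pool.Agent.Work.MP_01d39a_al.Basic

namespace Pool.Agent.Work.MP_01d39a_al

open scoped RealInnerProductSpace
open Finset Filter

lemma card_mul_le_of_fibers {α β : Type*} [DecidableEq β] (s : Finset α) (q : α → β)
    (T : Finset β) (D : ℝ) (h : ∀ z ∈ T, D ≤ ((s.filter fun p => q p = z).card : ℝ)) :
    (T.card : ℝ) * D ≤ s.card := by
  have h1 : ∑ z ∈ T, (s.filter fun p => q p = z).card ≤ s.card := by
    rw [Finset.sum_card_fiberwise_eq_card_filter]
    exact card_filter_le _ _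
  calc (T.card : ℝ) * D = ∑ _z ∈ T, D := by simp
    _ ≤ ∑ z ∈ T, ((s.filter fun p => q p = z).card : ℝ) := Finset.sum_le_sum h
    _ ≤ _ := by exact_mod_cast h1

namespace Cfg

variable {G E : Type*} [Group G] [NormedAddCommGroup E] [InnerProductSpace ℝ E] (c : Cfg G E)

/-- Distinct exponents and nearly orthogonal edges along the path. -/
def Good (L : ℕ) (k : ℕ → ℕ) : Prop :=
  (∀ i < L, ∀ j < L, k i = k j → i = j) ∧
  (∀ i < L, ∀ j < L, i ≠ j →
    |c.h ((path c.u c.a k i)⁻¹ * path c.u c.a k j)| * L ≤ c.m / 2)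

lemma weighted_bessel [DecidableEq G] {ι : Type*} (s : Finset ι) (q : ι → G) (D : ℝ)
    (hD0 : 0 ≤ D) (hD : ∀ z, ((s.filter fun p => q p = z).card : ℝ) ≤ D) (b : E) :
    ∑ p ∈ s, ⟪c.e (q p), b⟫ ^ 2 ≤ D * c.M * ‖b‖ ^ 2 := by
  rw [Finset.sum_comp (fun z => ⟪c.e z, b⟫ ^ 2) q]
  calc _ ≤ ∑ z ∈ s.image q, D * ⟪c.e z, b⟫ ^ 2 := by
        refine Finset.sum_le_sum fun z _ => ?_
        rw [nsmul_eq_mul]
        exact mul_le_mul_of_nonneg_right (hD z) (sq_nonneg _)
    _ ≤ _ := by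
        rw [← Finset.mul_sum, mul_assoc]
        exact mul_le_mul_of_nonneg_left (c.bessel_e _ b) hD0

lemma norm_sum_e_sq (d : ℕ) (f : ℕ → G) :
    ‖∑ r ∈ range d, c.e (f r)‖ ^ 2 ≤ (d : ℝ) ^ 2 * c.m := by
  calc _ ≤ (∑ r ∈ range d, ‖c.e (f r)‖) ^ 2 := by
        gcongr
        exact norm_sum_le _ _
    _ ≤ (range d).card * ∑ r ∈ range d, ‖c.e (f r)‖ ^ 2 := sq_sum_le_card_mul_sum_sq
    _ = _ := by simp [norm_e_sq]; ring

/-- The condition on a family of segments. -/
def Seg (L : ℕ) (k : ℕ → ℕ) (d : ℕ) (A : Finset (G × ℕ)) (B B' : Finset G) : Prop :=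
  ∀ p ∈ A, p.2 + d < L ∧ p.1 * path c.u c.a k p.2 * c.u ∈ B ∧
    p.1 * path c.u c.a k (p.2 + d + 1) ∈ B'

lemma Seg.mono {c : Cfg G E} {L : ℕ} {k : ℕ → ℕ} {d : ℕ} {A A' : Finset (G × ℕ)}
    {B B' : Finset G} (h : c.Seg L k d A B B') (hA : A' ⊆ A) : c.Seg L k d A' B B' :=
  fun p hp => h p (hA hp)

lemma Seg.card_le {c : Cfg G E} {L : ℕ} {k : ℕ → ℕ} {d : ℕ} {A : Finset (G × ℕ)}
    {B B' : Finset G} (h : c.Seg L k d A B B') : (A.card : ℝ) ≤ L * B.card := by
  have : A.card ≤ (range L ×ˢ B).card := by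
    refine card_le_card_of_injOn (fun p => (p.2, p.1 * path c.u c.a k p.2 * c.u)) ?_ ?_
    · intro p hp
      obtain ⟨h1, h2, -⟩ := h p hp
      simp only [coe_product, Set.mem_prod, mem_coe, mem_range]
      exact ⟨by omega, h2⟩
    · rintro ⟨x, i⟩ _ ⟨x', i'⟩ _ he
      simp only [Prod.mk.injEq] at he
      obtain ⟨rfl, he⟩ := he
      simpa using he
  rw [card_product, card_range] at this
  exact_mod_cast this

lemma low_bound [DecidableEq G] {L : ℕ} {k : ℕ → ℕ} (hk : c.Good L k) {d : ℕ} (hd : 1 ≤ d)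
    {A : Finset (G × ℕ)} {B B' : Finset G} (hA : c.Seg L k d A B B') (D : ℝ) (hD0 : 0 ≤ D)
    (hD : ∀ z, ((A.filter fun p => p.1 * path c.u c.a k (p.2 + 1) = z).card : ℝ) ≤ D) :
    (A.card : ℝ) * c.m ≤ 4 * d ^ 2 * D * c.M * (B.card + B'.card) := by
  classical
  set y := path c.u c.a k with hy
  have hM := c.M_pos
  have hm := c.m_pos
  have h := trace_bound (B.image c.P ∪ B'.image c.P) A
    (fun p => c.P (p.1 * y (p.2 + 1 + d)) - c.P (p.1 * y (p.2 + 1)))
    (fun p => c.e (p.1 * y (p.2 + 1))) (by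
      intro p hp
      obtain ⟨-, h2, h3⟩ := hA p hp
      refine Submodule.sub_mem _ (Submodule.subset_span ?_) (Submodule.subset_span ?_)
      · simp only [coe_union, coe_image, Set.mem_union]
        exact Or.inr ⟨_, h3, by rw [show p.2 + d + 1 = p.2 + 1 + d by omega]⟩
      · simp only [coe_union, coe_image, Set.mem_union]
        exact Or.inl ⟨_, h2, (c.P_path_succ k _ _).symm⟩) (D * c.M) (by positivity)
    (c.weighted_bessel A _ D hD0 hD)
  have h1 : ∀ p ∈ A, c.m / 2 ≤ ⟪c.P (p.1 * y (p.2 + 1 + d)) - c.P (p.1 * y (p.2 + 1)),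
      c.e (p.1 * y (p.2 + 1))⟫ := by
    intro p hp
    obtain ⟨hL, -, -⟩ := hA p hp
    obtain ⟨d, rfl⟩ : ∃ d', d = d' + 1 := ⟨d - 1, by omega⟩
    rw [hy, c.telescope, sum_inner, Finset.sum_range_succ', ← hy]
    simp only [inner_e, add_zero, inv_mul_cancel, h_one]
    have hLpos : (0 : ℝ) < L := by exact_mod_cast (show 0 < L by omega)
    have h2 : ∀ r ∈ range d, -(c.m / 2 / L) ≤
        c.h ((p.1 * y (p.2 + 1))⁻¹ * (p.1 * y (p.2 + 1 + (r + 1)))) := by
      intro r hr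
      rw [mem_range] at hr
      have := hk.2 (p.2 + 1) (by omega) (p.2 + 1 + (r + 1)) (by omega) (by omega)
      rw [← le_div_iff₀ hLpos, ← hy] at this
      rw [show (p.1 * y (p.2 + 1))⁻¹ * (p.1 * y (p.2 + 1 + (r + 1))) =
        (y (p.2 + 1))⁻¹ * y (p.2 + 1 + (r + 1)) by group]
      exact (abs_le.1 this).1
    have h3 := Finset.sum_le_sum h2
    simp only [sum_const, card_range, nsmul_eq_mul] at h3
    have h4 : (d : ℝ) * (c.m / 2 / L) ≤ c.m / 2 := by
      rw [mul_div_assoc', div_le_iff₀ hLpos]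
      have : (d : ℝ) ≤ L := by exact_mod_cast (show d ≤ L by omega)
      nlinarith
    linarith
  have h2 : ∀ p ∈ A, ‖c.P (p.1 * y (p.2 + 1 + d)) - c.P (p.1 * y (p.2 + 1))‖ ^ 2 ≤
      (d : ℝ) ^ 2 * c.m := by
    intro p _
    rw [hy, c.telescope]
    exact c.norm_sum_e_sq d _
  have h3 := Finset.sum_le_sum h1
  have h4 := Finset.sum_le_sum h2
  simp only [sum_const, nsmul_eq_mul] at h3 h4
  have h5 : ((B.image c.P ∪ B'.image c.P).card : ℝ) ≤ B.card + B'.card := by
    exact_mod_cast (card_union_le _ _).trans (Nat.add_le_add card_image_le card_image_le)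
  have h6 : ((A.card : ℝ) * (c.m / 2)) ^ 2 ≤
      (A.card * (d ^ 2 * c.m)) * (D * c.M * (B.card + B'.card)) := by
    refine le_trans (by gcongr) (h.trans ?_)
    gcongr
  rcases Nat.eq_zero_or_pos A.card with h0 | h0
  · rw [h0]; simp; positivity
  · have hp : (0 : ℝ) < A.card * c.m := mul_pos (by exact_mod_cast h0) hm
    refine le_of_mul_le_mul_left ?_ hp
    nlinarith

lemma split [DecidableEq G] {L : ℕ} {k : ℕ → ℕ} (hk : c.Good L k) {d : ℕ} (hd : 1 ≤ d)
    {A : Finset (G × ℕ)} {B B' : Finset G} (hA : c.Seg L k d A B B') (D : ℝ) (hD0 : 0 ≤ D) :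
    ∃ H : Finset (G × ℕ), H ⊆ A ∧
      (A.card : ℝ) * c.m ≤ 4 * d ^ 2 * D * c.M * (B.card + B'.card) + H.card * c.m ∧
      ∀ p ∈ H, D ≤ ((A.filter fun p' => p'.1 * path c.u c.a k (p'.2 + 1) =
        p.1 * path c.u c.a k (p.2 + 1)).card : ℝ) := by
  set q : G × ℕ → G := fun p => p.1 * path c.u c.a k (p.2 + 1) with hq
  refine ⟨A.filter fun p => D ≤ ((A.filter fun p' => q p' = q p).card : ℝ), filter_subset _ _,
    ?_, fun p hp => (mem_filter.1 hp).2⟩
  have h1 := c.low_bound hk hd (hA.mono (filter_subset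
    (fun p => ¬ D ≤ ((A.filter fun p' => q p' = q p).card : ℝ)) A)) D hD0 (by
      intro z
      rcases ((A.filter fun p => ¬ D ≤ ((A.filter fun p' => q p' = q p).card : ℝ)).filter
        fun p => q p = z).eq_empty_or_nonempty with he | ⟨p, hp⟩
      · rw [he]; simpa using hD0
      · simp only [mem_filter, not_le] at hp
        refine le_trans ?_ hp.1.2.le
        rw [hp.2]
        exact_mod_cast card_le_card (filter_subset_filter _ (filter_subset _ _)))
  have h2 := card_filter_add_card_filter_not (s := A)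
    (fun p => D ≤ ((A.filter fun p' => q p' = q p).card : ℝ))
  rw [← h2]
  push_cast
  linarith

theorem seg_one [DecidableEq G] (σ : ℝ) (hσ : 0 < σ) : ∀ᶠ L : ℕ in atTop, ∀ k, c.Good L k →
    ∀ A B B', c.Seg L k 1 A B B' → (A.card : ℝ) ≤ σ * L * (B.card + B'.card) := by
  classical
  have hM := c.M_pos
  have hm := c.m_pos
  set D := 2 * c.M / (c.m * σ) with hD
  have hD0 : 0 < D := by positivity
  filter_upwards [tendsto_natCast_atTop_atTop (R := ℝ).eventually_ge_atTop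
    (8 * D * c.M / (c.m * σ))] with L hL k hk A B B' hA
  obtain ⟨H, hHA, h1, h2⟩ := c.split hk le_rfl hA D hD0.le
  set y := path c.u c.a k with hy
  set Q := H.image fun p => p.1 * y (p.2 + 1) with hQ
  set Z₁ := (B.image c.P).filter fun ζ => D ≤ ((B.filter fun b => c.P b = ζ).card : ℝ) with hZ₁
  set Z₂ := (B'.image c.P).filter fun ζ => D ≤ ((B'.filter fun b => c.P b = ζ).card : ℝ) with hZ₂
  have hZ1 := card_mul_le_of_fibers B c.P Z₁ D fun z hz => (mem_filter.1 hz).2
  have hZ2 := card_mul_le_of_fibers B' c.P Z₂ D fun z hz => (mem_filter.1 hz).2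
  have hQ1 : ∀ z ∈ Q, c.P z ∈ Z₁ := by
    intro z hz
    obtain ⟨p, hp, rfl⟩ := mem_image.1 hz
    refine mem_filter.2 ⟨mem_image.2 ⟨_, (hA p (hHA hp)).2.1, (c.P_path_succ k _ _).symm⟩, ?_⟩
    refine (h2 p hp).trans ?_
    refine Nat.cast_le.2 (card_le_card_of_injOn (fun p => p.1 * y p.2 * c.u) ?_ ?_)
    · intro p' hp'
      obtain ⟨h3, h4⟩ := mem_filter.1 hp'
      refine mem_filter.2 ⟨(hA p' h3).2.1, ?_⟩
      rw [← h4, hy, c.P_path_succ]
    · rintro ⟨x, i⟩ h3 ⟨x', i'⟩ h4 he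
      obtain ⟨h3, h5⟩ := mem_filter.1 h3
      obtain ⟨h4, h6⟩ := mem_filter.1 h4
      have h7 := h5.trans h6.symm
      simp only [hy, path_succ, ← mul_assoc] at h7 he
      rw [he] at h7
      have h8 : i = i' := hk.1 i (by have := (hA _ h3).1; simp only at this; omega) i'
        (by have := (hA _ h4).1; simp only at this; omega) (c.pow_inj _ _ (by simpa using h7))
      subst h8
      simpa using he
  have hQ2 : ∀ z ∈ Q, c.P (z * c.u) ∈ Z₂ := by
    intro z hz
    obtain ⟨p, hp, rfl⟩ := mem_image.1 hz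
    refine mem_filter.2 ⟨mem_image.2 ⟨_, (hA p (hHA hp)).2.2, (c.P_path_succ k _ _)⟩, ?_⟩
    refine (h2 p hp).trans ?_
    refine Nat.cast_le.2 (card_le_card_of_injOn (fun p => p.1 * y (p.2 + 1 + 1)) ?_ ?_)
    · intro p' hp'
      obtain ⟨h3, h4⟩ := mem_filter.1 hp'
      refine mem_filter.2 ⟨(hA p' h3).2.2, ?_⟩
      rw [← h4, hy, c.P_path_succ]
    · rintro ⟨x, i⟩ h3 ⟨x', i'⟩ h4 he
      obtain ⟨h3, h5⟩ := mem_filter.1 h3
      obtain ⟨h4, h6⟩ := mem_filter.1 h4
      have h7 := h5.trans h6.symm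
      simp only at h7 he
      rw [hy, path_succ _ _ _ (i + 1), path_succ _ _ _ (i' + 1), ← hy] at he
      simp only [← mul_assoc] at he
      rw [h7] at he
      have h8 : i + 1 = i' + 1 := hk.1 _ (hA _ h3).1 _ (hA _ h4).1
        (c.pow_inj _ _ (by simpa using he))
      obtain rfl : i = i' := by omega
      simpa using h7
  have h3 := c.edge_bound Q (Z₁ ∪ Z₂) (fun z hz => mem_union_left _ (hQ1 z hz))
    (fun z hz => mem_union_right _ (hQ2 z hz))
  have h4 : ((Z₁ ∪ Z₂).card : ℝ) ≤ Z₁.card + Z₂.card := by exact_mod_cast card_union_le _ _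
  have h5 : (H.card : ℝ) ≤ L * Q.card := by
    have : H.card ≤ (range L ×ˢ Q).card := by
      refine card_le_card_of_injOn (fun p => (p.2, p.1 * y (p.2 + 1))) ?_ ?_
      · intro p hp
        have := (hA p (hHA hp)).1
        simp only [coe_product, Set.mem_prod, mem_coe, mem_range]
        exact ⟨by omega, mem_image_of_mem _ hp⟩
      · rintro ⟨x, i⟩ _ ⟨x', i'⟩ _ he
        simp only [Prod.mk.injEq] at he
        obtain ⟨rfl, he⟩ := he
        simpa using he
    rw [card_product, card_range] at this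
    exact_mod_cast this
  set N : ℝ := B.card + B'.card with hN
  have hN0 : 0 ≤ N := by positivity
  have h6 : (Q.card : ℝ) ≤ σ / 2 * N := by
    have h7 : (Q.card : ℝ) * c.m * D ≤ c.M * N := by
      calc _ ≤ c.M * (Z₁.card + Z₂.card) * D :=
            mul_le_mul_of_nonneg_right (h3.trans (by gcongr)) hD0.le
        _ = c.M * (Z₁.card * D + Z₂.card * D) := by ring
        _ ≤ _ := by gcongr; linarith
    have h8 : (Q.card : ℝ) * c.m * D = c.M * (Q.card * 2 / σ) := by
      rw [hD]; field_simp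
    rw [h8] at h7
    have h9 := le_of_mul_le_mul_left h7 hM
    rw [div_le_iff₀ hσ] at h9
    linarith
  rw [div_le_iff₀ (by positivity)] at hL
  have hL0 : (0 : ℝ) ≤ L := Nat.cast_nonneg _
  refine le_of_mul_le_mul_right ?_ hm
  have h10 : (H.card : ℝ) * c.m ≤ L * (σ / 2 * N) * c.m := by
    gcongr
    exact h5.trans (by gcongr)
  have h11 : 4 * ((1 : ℕ) : ℝ) ^ 2 * D * c.M * N ≤ L * (c.m * σ) / 2 * N := by
    gcongr
    push_cast
    linarith
  calc _ ≤ _ := h1
    _ ≤ _ := add_le_add h11 h10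
    _ = _ := by ring

theorem seg_bound [DecidableEq G] (d : ℕ) (hd : 1 ≤ d) : ∀ σ : ℝ, 0 < σ →
    ∀ᶠ L : ℕ in atTop, ∀ k, c.Good L k →
    ∀ A B B', c.Seg L k d A B B' → (A.card : ℝ) ≤ σ * L * (B.card + B'.card) := by
  induction d, hd using Nat.le_induction with
  | base => exact c.seg_one
  | succ d hd ih =>
    intro σ hσ
    have hM := c.M_pos
    have hm := c.m_pos
    set δ := σ * c.m / (8 * ((d + 1 : ℕ) : ℝ) ^ 2 * c.M) with hδ
    have hδ0 : 0 < δ := by positivity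
    filter_upwards [ih (σ * δ / (2 * (1 + δ))) (by positivity), eventually_gt_atTop 0]
      with L hL hL0 k hk A B B' hA
    have hL1 : (0 : ℝ) < L := by exact_mod_cast hL0
    obtain ⟨H, hHA, h1, h2⟩ := c.split hk (by omega) hA (δ * L) (by positivity)
    set y := path c.u c.a k with hy
    set Q := H.image fun p => p.1 * y (p.2 + 1) with hQ
    have h3 := card_mul_le_of_fibers A (fun p => p.1 * y (p.2 + 1)) Q (δ * L) (by
      intro z hz
      obtain ⟨p, hp, rfl⟩ := mem_image.1 hz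
      exact h2 p hp)
    have h4 := hA.card_le
    have h5 : (Q.card : ℝ) * δ ≤ B.card := by
      refine le_of_mul_le_mul_right ?_ hL1
      linarith
    have h6 := hL k hk (H.image fun p => (p.1, p.2 + 1)) (Q.image (· * c.u)) B' (by
      intro p' hp'
      obtain ⟨p, hp, rfl⟩ := mem_image.1 hp'
      obtain ⟨h7, -, h8⟩ := hA p (hHA hp)
      refine ⟨by simp only; omega, mem_image_of_mem _ (mem_image_of_mem _ hp), ?_⟩
      simp only
      rwa [show p.2 + 1 + d + 1 = p.2 + (d + 1) + 1 by omega])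
    rw [card_image_of_injective _ (by
      rintro ⟨x, i⟩ ⟨x', i'⟩ he
      simpa using he), card_image_of_injective _ (mul_left_injective c.u)] at h6
    have h7 : σ * δ / (2 * (1 + δ)) * (Q.card + B'.card) ≤ σ / 2 * (B.card + B'.card) := by
      rw [div_mul_eq_mul_div, div_le_iff₀ (by positivity)]
      have hB : (0 : ℝ) ≤ B.card := Nat.cast_nonneg _
      have hB' : (0 : ℝ) ≤ B'.card := Nat.cast_nonneg _
      have : δ * (Q.card + B'.card) ≤ (B.card + B'.card) * (1 + δ) := by nlinarith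
      nlinarith
    have h8 : 4 * ((d + 1 : ℕ) : ℝ) ^ 2 * (δ * L) * c.M = σ / 2 * L * c.m := by
      rw [hδ]; field_simp; ring
    rw [h8] at h1
    refine le_of_mul_le_mul_right ?_ hm
    have h9 : (H.card : ℝ) * c.m ≤ L * (σ / 2 * (B.card + B'.card)) * c.m := by
      gcongr
      calc _ ≤ _ := h6
        _ = L * (σ * δ / (2 * (1 + δ)) * (Q.card + B'.card)) := by ring
        _ ≤ _ := by gcongr
    nlinarith

end Cfg

end Pool.Agent.Work.MP_01d39a_al
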