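import Mathlib

namespace Pool.Agent.Work.MP_01d39a_al

open scoped RealInnerProductSpace
open Finset

variable {E : Type*} [NormedAddCommGroup E] [InnerProductSpace ℝ E]

lemma exists_coords (Z : Finset E) :
    ∃ (n : ℕ) (b : Fin n → E), n ≤ Z.card ∧ (∀ j, ‖b j‖ = 1) ∧
      ∀ v ∈ Submodule.span ℝ (Z : Set E), ∀ w : E, ⟪v, w⟫ = ∑ j, ⟪v, b j⟫ * ⟪w, b j⟫ := by
  set V := Submodule.span ℝ (Z : Set E) with hV
  have : FiniteDimensional ℝ V := FiniteDimensional.span_finset ℝ Z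
  let b := stdOrthonormalBasis ℝ V
  refine ⟨Module.finrank ℝ V, fun j => (b j : E), finrank_span_finset_le_card Z, ?_, ?_⟩
  · intro j
    exact b.orthonormal.1 j
  · intro v hv w
    have h := b.sum_repr' (⟨v, hv⟩ : V)
    have h2 : v = ∑ j, ⟪v, (b j : E)⟫ • (b j : E) := by
      have := congrArg (fun x : V => (x : E)) h
      simp only [AddSubmonoidClass.coe_finsetSum, SetLike.val_smul] at this
      rw [← this]
      refine Finset.sum_congr rfl fun j _ => ?_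
      rw [this, Submodule.coe_inner, real_inner_comm]
    conv_lhs => rw [h2]
    rw [sum_inner]
    refine Finset.sum_congr rfl fun j _ => ?_
    rw [real_inner_smul_left, real_inner_comm w]

/-- Trace bound with test vectors. -/
lemma trace_bound {ι : Type*} (Z : Finset E) (s : Finset ι) (v w : ι → E)
    (hv : ∀ i ∈ s, v i ∈ Submodule.span ℝ (Z : Set E)) (C : ℝ) (hC0 : 0 ≤ C)
    (hC : ∀ b : E, ∑ i ∈ s, ⟪w i, b⟫ ^ 2 ≤ C * ‖b‖ ^ 2) :
    (∑ i ∈ s, ⟪v i, w i⟫) ^ 2 ≤ (∑ i ∈ s, ‖v i‖ ^ 2) * (C * Z.card) := by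
  obtain ⟨n, b, hn, hb, hsum⟩ := exists_coords Z
  have h1 : ∑ i ∈ s, ⟪v i, w i⟫ =
      ∑ p ∈ s ×ˢ (univ : Finset (Fin n)), ⟪v p.1, b p.2⟫ * ⟪w p.1, b p.2⟫ := by
    rw [Finset.sum_product]
    exact Finset.sum_congr rfl fun i hi => hsum _ (hv i hi) _
  have h2 : ∑ i ∈ s, ‖v i‖ ^ 2 = ∑ p ∈ s ×ˢ (univ : Finset (Fin n)), ⟪v p.1, b p.2⟫ ^ 2 := by
    rw [Finset.sum_product]
    refine Finset.sum_congr rfl fun i hi => ?_
    rw [← real_inner_self_eq_norm_sq, hsum _ (hv i hi)]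
    exact Finset.sum_congr rfl fun j _ => by ring
  have h3 : ∑ p ∈ s ×ˢ (univ : Finset (Fin n)), ⟪w p.1, b p.2⟫ ^ 2 ≤ C * Z.card := by
    rw [Finset.sum_product_right]
    calc ∑ j : Fin n, ∑ i ∈ s, ⟪w i, b j⟫ ^ 2 ≤ ∑ j : Fin n, C := by
          refine Finset.sum_le_sum fun j _ => ?_
          simpa [hb j] using hC (b j)
      _ = C * n := by simp [mul_comm]
      _ ≤ C * Z.card := by gcongr
  rw [h1, h2]
  refine (Finset.sum_mul_sq_le_sq_mul_sq _ _ _).trans ?_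
  gcongr

/-- Second moment rank bound. -/
lemma second_moment {ι : Type*} (Z : Finset E) (s : Finset ι) (v : ι → E)
    (hv : ∀ i ∈ s, v i ∈ Submodule.span ℝ (Z : Set E)) :
    (∑ i ∈ s, ‖v i‖ ^ 2) ^ 2 ≤ Z.card * ∑ i ∈ s, ∑ i' ∈ s, ⟪v i, v i'⟫ ^ 2 := by
  obtain ⟨n, b, hn, hb, hsum⟩ := exists_coords Z
  set α : ι → Fin n → ℝ := fun i j => ⟪v i, b j⟫ with hα
  set T : Fin n → Fin n → ℝ := fun j j' => ∑ i ∈ s, α i j * α i j' with hT
  have h1 : ∑ i ∈ s, ‖v i‖ ^ 2 = ∑ j, T j j := by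
    simp only [hT]
    rw [Finset.sum_comm]
    refine Finset.sum_congr rfl fun i hi => ?_
    rw [← real_inner_self_eq_norm_sq, hsum _ (hv i hi)]
  have h2 : ∑ i ∈ s, ∑ i' ∈ s, ⟪v i, v i'⟫ ^ 2 = ∑ j, ∑ j', T j j' ^ 2 := by
    have e1 : ∑ i ∈ s, ∑ i' ∈ s, ⟪v i, v i'⟫ ^ 2 =
        ∑ i ∈ s, ∑ i' ∈ s, ∑ j, ∑ j', (α i j * α i j') * (α i' j * α i' j') := by
      refine Finset.sum_congr rfl fun i hi => Finset.sum_congr rfl fun i' _ => ?_
      rw [hsum _ (hv i hi), sq, Finset.sum_mul_sum]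
      exact Finset.sum_congr rfl fun j _ => Finset.sum_congr rfl fun j' _ => by
        simp only [hα]; ring
    have e2 : ∑ j, ∑ j', T j j' ^ 2 =
        ∑ j, ∑ j', ∑ i ∈ s, ∑ i' ∈ s, (α i j * α i j') * (α i' j * α i' j') := by
      refine Finset.sum_congr rfl fun j _ => Finset.sum_congr rfl fun j' _ => ?_
      simp only [hT]
      rw [sq, Finset.sum_mul_sum]
    rw [e1, e2]
    calc _ = ∑ i ∈ s, ∑ j, ∑ j', ∑ i' ∈ s, (α i j * α i j') * (α i' j * α i' j') := by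
          refine Finset.sum_congr rfl fun i _ => ?_
          rw [Finset.sum_comm]
          refine Finset.sum_congr rfl fun j _ => ?_
          rw [Finset.sum_comm]
      _ = _ := by
          rw [Finset.sum_comm]
          refine Finset.sum_congr rfl fun j _ => ?_
          rw [Finset.sum_comm]
  rw [h1, h2]
  have h3 : (∑ j, T j j) ^ 2 ≤ (n : ℝ) * ∑ j, T j j ^ 2 := by
    simpa using sq_sum_le_card_mul_sum_sq (s := (univ : Finset (Fin n))) (f := fun j => T j j)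
  have h4 : ∑ j, T j j ^ 2 ≤ ∑ j, ∑ j', T j j' ^ 2 :=
    Finset.sum_le_sum fun j _ =>
      Finset.single_le_sum (f := fun j' => T j j' ^ 2) (fun _ _ => sq_nonneg _) (mem_univ j)
  have h5 : (n : ℝ) ≤ Z.card := by exact_mod_cast hn
  calc _ ≤ (n : ℝ) * ∑ j, T j j ^ 2 := h3
    _ ≤ _ := by gcongr

end Pool.Agent.Work.MP_01d39a_al
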