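import Pool.Agent.Work.MP_01d39a_al.Mult

namespace Pool.Agent.Work.MP_01d39a_al

open scoped RealInnerProductSpace
open Finset Filter

lemma kernel_sum {G ι : Type*} [Group G] [DecidableEq G] (s : Finset ι) (z : ι → G)
    (κ : G → ℝ) (h0 : ∀ t, 0 ≤ κ t) (hsymm : ∀ t, κ t⁻¹ = κ t) (K : ℝ)
    (hK : ∀ Y : Finset G, ∑ t ∈ Y, κ t ≤ K) :
    ∑ p ∈ s, ∑ q ∈ s, κ ((z q)⁻¹ * z p) ≤
      K * ∑ w ∈ s.image z, ((s.filter fun p => z p = w).card : ℝ) ^ 2 := by
  set μ : G → ℝ := fun w => ((s.filter fun p => z p = w).card : ℝ) with hμ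
  set Z := s.image z with hZ
  have h1 : ∑ p ∈ s, ∑ q ∈ s, κ ((z q)⁻¹ * z p) =
      ∑ w ∈ Z, ∑ w' ∈ Z, μ w * μ w' * κ (w'⁻¹ * w) := by
    rw [Finset.sum_comp (fun w => ∑ q ∈ s, κ ((z q)⁻¹ * w)) z]
    refine Finset.sum_congr rfl fun w _ => ?_
    rw [Finset.sum_comp (fun w' => κ (w'⁻¹ * w)) z, nsmul_eq_mul, Finset.mul_sum]
    refine Finset.sum_congr rfl fun w' _ => ?_
    rw [nsmul_eq_mul, mul_assoc]
  have h2 : ∀ w, ∑ w' ∈ Z, κ (w⁻¹ * w') ≤ K := by
    intro w
    have := hK (Z.image fun w' => w⁻¹ * w')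
    rwa [Finset.sum_image (fun a _ b _ h => by simpa using h)] at this
  have h3 : ∀ w, ∑ w' ∈ Z, κ (w'⁻¹ * w) ≤ K := by
    intro w
    refine le_trans (le_of_eq ?_) (h2 w)
    refine Finset.sum_congr rfl fun w' _ => ?_
    rw [← hsymm]; simp
  rw [h1]
  calc _ ≤ ∑ w ∈ Z, ∑ w' ∈ Z, (μ w ^ 2 / 2 * κ (w'⁻¹ * w) + μ w' ^ 2 / 2 * κ (w'⁻¹ * w)) := by
        refine Finset.sum_le_sum fun w _ => Finset.sum_le_sum fun w' _ => ?_
        rw [← add_mul]
        refine mul_le_mul_of_nonneg_right ?_ (h0 _)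
        nlinarith [sq_nonneg (μ w - μ w')]
    _ = ∑ w ∈ Z, μ w ^ 2 / 2 * ∑ w' ∈ Z, κ (w'⁻¹ * w) +
          ∑ w' ∈ Z, μ w' ^ 2 / 2 * ∑ w ∈ Z, κ (w'⁻¹ * w) := by
        simp only [Finset.sum_add_distrib, Finset.mul_sum]
        rw [Finset.sum_comm (f := fun w w' => μ w' ^ 2 / 2 * κ (w'⁻¹ * w))]
    _ ≤ ∑ w ∈ Z, μ w ^ 2 / 2 * K + ∑ w' ∈ Z, μ w' ^ 2 / 2 * K := by
        gcongr with w _ w _
        · exact h3 w
        · exact h2 w
    _ = _ := by
        rw [Finset.mul_sum, ← Finset.sum_add_distrib]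
        exact Finset.sum_congr rfl fun w _ => by ring

namespace Cfg

variable {G E : Type*} [Group G] [NormedAddCommGroup E] [InnerProductSpace ℝ E] (c : Cfg G E)

theorem star [DecidableEq G] (θ : ℝ) (hθ : 0 < θ) : ∀ᶠ L : ℕ in atTop, ∀ k, c.Good L k →
    ∀ A : Finset G,
      ∑ w ∈ (A ×ˢ range L).image (fun p => p.1 * path c.u c.a k p.2),
        (((A ×ˢ range L).filter fun p => p.1 * path c.u c.a k p.2 = w).card : ℝ) ^ 2 ≤
      θ * L ^ 2 * A.card := by
  obtain ⟨s, hs⟩ := exists_nat_gt (8 / θ)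
  have hs0 : (0 : ℝ) < s := lt_trans (by positivity) hs
  set σ := θ * (θ / 4) / (8 * s) with hσ
  have hσ0 : 0 < σ := by positivity
  have hev := (eventually_all_finset (Icc 1 s)).2
    fun d hd => c.seg_bound d (mem_Icc.1 hd).1 σ hσ0
  filter_upwards [hev, tendsto_natCast_atTop_atTop (R := ℝ).eventually_gt_atTop (8 / θ)]
    with L hL hL8 k hk A
  have hL0 : (0 : ℝ) < L := lt_trans (by positivity) hL8
  set y := path c.u c.a k with hy
  set Pp := A ×ˢ range L with hPp
  set z : G × ℕ → G := fun p => p.1 * y p.2 with hz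
  set μ : G → ℕ := fun w => (Pp.filter fun p => z p = w).card with hμ
  set Z := Pp.image z with hZ
  set B := Z.filter fun w => θ / 4 * L ≤ (μ w : ℝ) with hB
  have hPc : (Pp.card : ℝ) = A.card * L := by simp [hPp]
  have hBc : (B.card : ℝ) * (θ / 4) ≤ A.card := by
    have := card_mul_le_of_fibers Pp z B (θ / 4 * L) fun w hw => (mem_filter.1 hw).2
    rw [hPc] at this
    refine le_of_mul_le_mul_right ?_ hL0
    linarith
  have hμL : ∀ w, (μ w : ℝ) ≤ L := by
    intro w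
    have : μ w ≤ (range L).card := by
      refine card_le_card_of_injOn (fun p => p.2) ?_ ?_
      · intro p hp
        exact (mem_product.1 (mem_filter.1 hp).1).2
      · rintro ⟨x, i⟩ h1 ⟨x', i'⟩ h2 he
        simp only at he
        subst he
        have := (mem_filter.1 h1).2.trans (mem_filter.1 h2).2.symm
        simpa [hz] using this
    rw [card_range] at this
    exact_mod_cast this
  have hsum : ∑ w ∈ Z, (μ w : ℝ) = A.card * L := by
    rw [← hPc, card_eq_sum_card_image z Pp]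
    push_cast
    rfl
  set PB := Pp.filter fun p => z p ∈ B with hPB
  have hsumB : ∑ w ∈ B, (μ w : ℝ) = PB.card := by
    rw [hPB, ← Finset.sum_card_fiberwise_eq_card_filter]
    push_cast
    rfl
  set Ad : ℕ → Finset (G × ℕ) := fun d =>
    PB.filter fun p => p.2 + d + 1 < L ∧ p.1 * y (p.2 + d + 1) ∈ B with hAd
  set Jr := PB \ (Icc 1 s).biUnion Ad with hJr
  have hAdc : ∀ d ∈ Icc 1 s, ((Ad d).card : ℝ) ≤ σ * L * (2 * B.card) := by
    intro d hd
    have := hL d hd k hk (Ad d) (B.image (· * c.u)) B (by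
      intro p hp
      obtain ⟨h1, h2, h3⟩ := mem_filter.1 hp
      exact ⟨by omega, mem_image_of_mem _ (mem_filter.1 h1).2, h3⟩)
    rw [card_image_of_injective _ (mul_left_injective c.u)] at this
    linarith
  have hs1 : 0 < s := by exact_mod_cast hs0
  have hJc : (Jr.card : ℝ) ≤ A.card * ((L / s + 1) * 2) := by
    have h1 : Jr.card ≤ (A ×ˢ (range (L / s + 1) ×ˢ range 2)).card := by
      refine card_le_card_of_injOn (fun p => (p.1, p.2 / s, p.2 % 2)) ?_ ?_
      · intro p hp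
        have h2 := mem_product.1 (mem_filter.1 (mem_sdiff.1 hp).1).1
        simp only [coe_product, Set.mem_prod, mem_coe, mem_range]
        refine ⟨h2.1, ?_, Nat.mod_lt _ two_pos⟩
        have := Nat.div_le_div_right (c := s) (mem_range.1 h2.2).le
        omega
      · have key : ∀ p ∈ Jr, ∀ q ∈ Jr, p.1 = q.1 → p.2 / s = q.2 / s → p.2 % 2 = q.2 % 2 →
            ¬ p.2 < q.2 := by
          intro p hp q hq h1 h2 h3 hlt
          obtain ⟨hp1, hp2⟩ := mem_sdiff.1 hp
          obtain ⟨hq1, -⟩ := mem_sdiff.1 hq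
          have h4 : q.2 < p.2 + s := by
            have e1 := Nat.div_add_mod p.2 s
            have e2 := Nat.div_add_mod q.2 s
            have e3 := Nat.mod_lt q.2 hs1
            rw [h2] at e1
            omega
          refine hp2 (mem_biUnion.2 ⟨q.2 - p.2 - 1, mem_Icc.2 ⟨by omega, by omega⟩,
            mem_filter.2 ⟨hp1, ?_⟩⟩)
          rw [show p.2 + (q.2 - p.2 - 1) + 1 = q.2 by omega, h1]
          exact ⟨mem_range.1 (mem_product.1 (mem_filter.1 hq1).1).2, (mem_filter.1 hq1).2⟩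
        intro p hp q hq he
        simp only [Prod.mk.injEq] at he
        obtain ⟨h1, h2, h3⟩ := he
        have := key p hp q hq h1 h2 h3
        have := key q hq p hp h1.symm h2.symm h3.symm
        exact Prod.ext h1 (by omega)
    simp only [card_product, card_range] at h1
    have h2 : ((L / s : ℕ) : ℝ) ≤ L / s := Nat.cast_div_le
    calc (Jr.card : ℝ) ≤ ((A.card * ((L / s + 1) * 2) : ℕ) : ℝ) := by exact_mod_cast h1
      _ ≤ _ := by push_cast; gcongr
  have hPBc : (PB.card : ℝ) ≤ A.card * ((L / s + 1) * 2) + s * (σ * L * (2 * B.card)) := by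
    have h1 : PB ⊆ Jr ∪ (Icc 1 s).biUnion Ad := by
      rw [hJr, sdiff_union_self_eq_union]
      exact subset_union_left
    have h2 := (card_le_card h1).trans ((card_union_le _ _).trans
      (Nat.add_le_add_left card_biUnion_le _))
    have h3 := Finset.sum_le_sum hAdc
    simp only [sum_const, Nat.card_Icc, add_tsub_cancel_right, nsmul_eq_mul] at h3
    have h4 : (PB.card : ℝ) ≤ Jr.card + ∑ d ∈ Icc 1 s, ((Ad d).card : ℝ) := by exact_mod_cast h2
    linarith
  have hmain : ∑ w ∈ Z, (μ w : ℝ) ^ 2 ≤ θ / 4 * L * (A.card * L) + L * PB.card := by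
    rw [← hsum, ← hsumB, hB, Finset.sum_filter, Finset.mul_sum, Finset.mul_sum,
      ← Finset.sum_add_distrib]
    refine Finset.sum_le_sum fun w _ => ?_
    have h0 : (0 : ℝ) ≤ μ w := Nat.cast_nonneg _
    have h1 := hμL w
    split_ifs with h
    · have : 0 ≤ θ / 4 * L * μ w := by positivity
      nlinarith
    · push Not at h
      nlinarith
  have hA0 : (0 : ℝ) ≤ A.card := Nat.cast_nonneg _
  have e1 : (L : ℝ) / s * 2 ≤ θ / 4 * L := by
    rw [div_lt_iff₀ hθ] at hs
    rw [div_mul_eq_mul_div, div_le_iff₀ hs0]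
    nlinarith
  have e2 : (2 : ℝ) ≤ θ / 4 * L := by
    rw [div_lt_iff₀ hθ] at hL8
    nlinarith
  have e3 : s * (σ * L * (2 * B.card)) ≤ θ / 4 * L * A.card := by
    have : s * (σ * L * (2 * B.card)) = θ / 4 * L * (B.card * (θ / 4)) := by
      rw [hσ]; field_simp; ring
    rw [this]
    gcongr
  have e4 : (PB.card : ℝ) ≤ 3 * (θ / 4 * L * A.card) := by nlinarith
  calc _ ≤ _ := hmain
    _ ≤ θ / 4 * L * (A.card * L) + L * (3 * (θ / 4 * L * A.card)) := by gcongr
    _ = _ := by ring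

end Cfg

end Pool.Agent.Work.MP_01d39a_al
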